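import Pool.Agent.R739.ET.Inv
import Pool.Agent.H708R2.EulerModes.Build

/-!
# Steady pressureless flows with prescribed low Fourier modes which leave a tube free

This is `exists_steady` of `Pool.Agent.H708R2.EulerModes.Build` with one more pipe.
-/

open MeasureTheory Set
open scoped ENNReal NNReal Topology Pointwise ContDiff

set_option autoImplicit false

namespace Pool.Agent.R739.ET

open Pool.Agent.H708R2.EulerSign Pool.Agent.H708R2.EulerModes

/-- The helicity density of a superposition of disjoint parallel flows vanishes. -/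
lemma no_helicity {ι : Type} [Fintype ι] [DecidableEq ι] {F : ι → V → ℝ} {e : ι → V}
    (hF : ∀ j, ContDiff ℝ ∞ (F j))
    (hdis : ∀ i j, i ≠ j → ∀ x, F i x = 0 ∨ F j x = 0) (x : V) :
    ∑ i, (fun x => ∑ j, F j x • e j) x i * curl (fun x => ∑ j, F j x • e j) x i = 0 := by
  by_cases hall : ∀ j, F j x = 0
  · have h0 : ∀ i : Fin 3, (fun x => ∑ j, F j x • e j) x i = 0 := by
      intro i
      simp [hall]
    refine Finset.sum_eq_zero fun i _ => ?_
    rw [h0, zero_mul]
  · push Not at hall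
    obtain ⟨i, hi⟩ := hall
    have hU : IsOpen {y | F i y ≠ 0} := isOpen_ne_fun (hF i).continuous continuous_const
    have hev : (fun x => ∑ j, F j x • e j) =ᶠ[𝓝 x] fun x => F i x • e i := by
      filter_upwards [hU.mem_nhds hi] with y hy
      rw [Finset.sum_eq_single i]
      · intro j _ hj
        rw [(hdis i j (Ne.symm hj) y).resolve_left hy, zero_smul]
      · intro h; exact absurd (Finset.mem_univ i) h
    have hd : DifferentiableAt ℝ (F i) x := (hF i).differentiable (by simp) x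
    have hg : ∀ a b, grad (fun x => ∑ j, F j x • e j) x a b
        = fderiv ℝ (F i) x (Pi.single b 1) * e i a := by
      intro a b
      show fderiv ℝ (fun x => ∑ j, F j x • e j) x (Pi.single b 1) a = _
      rw [hev.fderiv_eq, (hd.hasFDerivAt.smul_const (e i)).fderiv]
      simp
    have hx : (fun x => ∑ j, F j x • e j) x = F i x • e i := hev.self_of_nhds
    rw [hx]
    unfold curl
    simp only [hg, Fin.sum_univ_three, Pi.smul_apply, smul_eq_mul, Matrix.cons_val_zero,
      Matrix.cons_val_one, Matrix.cons_val]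
    ring

/-- Existence of steady pressureless flows with prescribed low modes and uniform bounds. -/
theorem exists_steady_tube (K : ℕ) (A B : (Fin 3 → ℤ) → V)
    (hA : ∀ k ∈ Bx K, ph k (A k) = 0) (hB : ∀ k ∈ Bx K, ph k (B k) = 0)
    (hAs : ∀ k ∈ Bx K, A (-k) = A k) (hBs : ∀ k ∈ Bx K, B (-k) = -B k) :
    ∃ C : ℝ, 0 ≤ C ∧ ∃ (c : V) (δ : ℝ), 0 < δ ∧ δ ≤ 1 ∧
      ∀ N : ℕ, 2 * K < N → ∃ v : V → V, ContDiff ℝ ∞ v ∧ Periodic3 v ∧
      (∀ x, divergence v x = 0) ∧ (∀ x, fderiv ℝ v x (v x) = 0) ∧ (∀ x, ‖v x‖ ≤ C) ∧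
      (∀ x, rad (wv c ((N : ℝ) • x)) < δ → v x = 0) ∧ (∀ x, ∑ i, v x i * curl v x i = 0) ∧
      (∀ l ∈ Bx K, ∀ i, ∫ x in Dom, v x i * Real.cos (ph l x) = A l i ∧
        ∫ x in Dom, v x i * Real.sin (ph l x) = B l i) ∧
      (∀ l : Fin 3 → ℤ, l ∉ Bx K → (∀ i, |l i| + K < N) → ∀ i,
        ∫ x in Dom, v x i * Real.cos (ph l x) = 0 ∧
        ∫ x in Dom, v x i * Real.sin (ph l x) = 0) := by
  classical
  choose ξ m n hξ hm hn hs hspan using exists_dirs
  choose! a ha using fun (k : Fin 3 → ℤ) (hk : k ∈ Bx K) => hspan k (A k) (hA k hk)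
  choose! b hb using fun (k : Fin 3 → ℤ) (hk : k ∈ Bx K) => hspan k (B k) (hB k hk)
  let ι := {k // k ∈ Bx K} × Fin 3
  obtain ⟨φ', hφs', hφp', hφ0', hφ1', hφi', hφd', hφn'⟩ := exists_pipes (ι := Option ι)
    (fun j => j.elim (mk3 2 1 0 0) fun j => ξ j.1 j.2)
    (fun j => j.elim (mk3 2 0 1 0) fun j => m j.1 j.2)
    (fun j => j.elim (mk3 2 0 0 1) fun j => n j.1 j.2)
    (fun j => by
      cases j with
      | none =>
        simp only [Option.elim_none]
        rw [ph_mk3, rv_mk3_p, rv_mk3_q, rv_mk3_r]; simp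
      | some j => exact hm j.1 j.2)
    (fun j => by
      cases j with
      | none =>
        simp only [Option.elim_none]
        rw [ph_mk3, rv_mk3_p, rv_mk3_q, rv_mk3_r]; simp
      | some j => exact hn j.1 j.2)
    (fun j => by
      cases j with
      | none =>
        intro α β
        refine ⟨mk3 2 0 α β, ?_, ?_⟩
        · simp only [Option.elim_none]
          rw [ph_mk3, mk3_p, mk3_q, mk3_r]; simp
        · simp only [Option.elim_none]
          rw [ph_mk3, mk3_p, mk3_q, mk3_r]; simp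
      | some j => exact hs j.1 j.2)
  -- the free tube
  obtain ⟨c, hc⟩ := hφn' none
  obtain ⟨ρ, hρ, hball⟩ := Metric.isOpen_iff.1
    (isOpen_ne_fun (hφs' none).continuous (continuous_const (y := (0 : ℝ)))) c hc
  have hfree : ∀ x : V, rad (wv c x) < min 1 (ρ ^ 2) → φ' none x ≠ 0 := by
    intro x hx
    have hr : rad (wv c x) < ρ ^ 2 := hx.trans_le (min_le_right _ _)
    have h0 : |wv c x 0| < ρ := by
      refine abs_lt_of_sq_lt_sq ?_ hρ.le
      unfold rad at hr
      nlinarith [sq_nonneg (wv c x 1)]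
    have h1 : |wv c x 1| < ρ := by
      refine abs_lt_of_sq_lt_sq ?_ hρ.le
      unfold rad at hr
      nlinarith [sq_nonneg (wv c x 0)]
    have hmem : c + wv c x ∈ Metric.ball c ρ := by
      rw [Metric.mem_ball, dist_eq_norm, add_sub_cancel_left, pi_norm_lt_iff hρ]
      intro i
      fin_cases i
      · exact h0
      · exact h1
      · simpa using hρ
    have h2 : φ' none (c + wv c x) ≠ 0 := hball hmem
    obtain ⟨z0, hz0⟩ := wr_exists (x 0 - c 0)
    obtain ⟨z1, hz1⟩ := wr_exists (x 1 - c 1)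
    have hlat : (∑ i : Fin 3, (![z0, z1, 0] : Fin 3 → ℤ) i • (Pi.single i (2 * Real.pi) : V))
        ∈ Pool.Agent.H708R2.EulerSign.Lat := by
      refine Submodule.sum_mem _ fun i _ => Submodule.smul_mem _ _ ?_
      rw [← bas_apply]
      exact Submodule.subset_span ⟨i, rfl⟩
    have hx3 : x = (c + wv c x) + (∑ i : Fin 3, (![z0, z1, 0] : Fin 3 → ℤ) i •
        (Pi.single i (2 * Real.pi) : V)) + (x 2 - c 2) • rv (mk3 2 1 0 0) := by
      ext i
      rw [Fin.sum_univ_three]
      fin_cases i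
      · simp [rv, mk3]
        linarith
      · simp [rv, mk3]
        linarith
      · simp [rv, mk3]
    have h3 := hφi' none ((c + wv c x) + (∑ i : Fin 3, (![z0, z1, 0] : Fin 3 → ℤ) i •
        (Pi.single i (2 * Real.pi) : V))) (x 2 - c 2)
    have h4 := (hφp' none).lat hlat (c + wv c x)
    rw [hx3]
    erw [h3]
    rw [h4]
    exact h2
  set φ : ι → V → ℝ := fun j => φ' (some j) with hφdef
  have hφs : ∀ j, ContDiff ℝ ∞ (φ j) := fun j => hφs' (some j)
  have hφp : ∀ j, Periodic3 (φ j) := fun j => hφp' (some j)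
  have hφ0 : ∀ j x, 0 ≤ φ j x := fun j => hφ0' (some j)
  have hφ1 : ∀ j x, φ j x ≤ 1 := fun j => hφ1' (some j)
  have hφi : ∀ j x (s : ℝ), φ j (x + s • rv (ξ j.1 j.2)) = φ j x := fun j => hφi' (some j)
  have hφd : ∀ i j, i ≠ j → ∀ x, φ i x = 0 ∨ φ j x = 0 := fun i j hij =>
    hφd' (some i) (some j) (fun h => hij (Option.some_injective _ h))
  have hφn : ∀ j, ∃ x, φ j x ≠ 0 := fun j => hφn' (some j)
  set vol : ℝ := (volume Dom).toReal with hvol
  have hvol0 : 0 < vol := vol_pos
  have hIpos : ∀ j, 0 < ∫ x in Dom, φ j x := by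
    intro j
    refine lt_of_le_of_ne (integral_nonneg fun x => hφ0 j x) fun h0 => ?_
    obtain ⟨x, hx⟩ := hφn j
    exact hx (eq_zero_of_integral_eq_zero (hφp j) (hφs j).continuous (hφ0 j) h0.symm x)
  let f : ι → V → ℝ := fun j x => a j.1 j.2 * Real.cos (ph j.1 x) + b j.1 j.2 * Real.sin (ph j.1 x)
  refine ⟨∑ j : ι, (|a j.1 j.2| + |b j.1 j.2|) * (1 / ∫ x in Dom, φ j x) * ‖rv (ξ j.1 j.2)‖,
    Finset.sum_nonneg fun j _ => by have := hIpos j; positivity, c, min 1 (ρ ^ 2),
    lt_min one_pos (by positivity), min_le_left _ _, ?_⟩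
  intro N hN
  have hN0 : 0 < N := by omega
  have hNr : (N : ℝ) ≠ 0 := by positivity
  let ψ : ι → V → ℝ := fun j x => vol / (∫ x in Dom, φ j x) * φ j ((N : ℝ) • x)
  have hψ : ∀ j, Fine N (ψ j) := fun j =>
    fine_of_pipe (hφs j).continuous (hφp j) (hIpos j) hN0
  let F : ι → V → ℝ := fun j x => vol⁻¹ * (f j x * ψ j x)
  have hfs : ∀ j, ContDiff ℝ ∞ (f j) := fun j =>
    (contDiff_const.mul (Real.contDiff_cos.comp (ph_contDiff _))).add
      (contDiff_const.mul (Real.contDiff_sin.comp (ph_contDiff _)))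
  have hψs : ∀ j, ContDiff ℝ ∞ (ψ j) := fun j =>
    contDiff_const.mul ((hφs j).comp (contDiff_const_smul (N : ℝ)))
  have hFs : ∀ j, ContDiff ℝ ∞ (F j) := fun j => contDiff_const.mul ((hfs j).mul (hψs j))
  have hFinv : ∀ j (x : V) (s : ℝ), F j (x + s • rv (ξ j.1 j.2)) = F j x := by
    intro j x s
    have e1 : ph j.1 (x + s • rv (ξ j.1 j.2)) = ph j.1 x := by
      rw [ph_add, ph_smul, hξ, mul_zero, add_zero]
    have e2 : φ j ((N : ℝ) • (x + s • rv (ξ j.1 j.2))) = φ j ((N : ℝ) • x) := by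
      rw [smul_add, smul_smul]
      exact hφi j _ _
    simp only [F, f, ψ]
    rw [e1, e2]
  have hFdis : ∀ i j, i ≠ j → ∀ x, F i x = 0 ∨ F j x = 0 := by
    intro i j hij x
    rcases hφd i j hij ((N : ℝ) • x) with h | h
    · left; simp only [F, ψ]; rw [h]; ring
    · right; simp only [F, ψ]; rw [h]; ring
  have hst := steady (e := fun j : ι => rv (ξ j.1 j.2)) hFs hFinv hFdis
  have hvp : Periodic3 (fun x => ∑ j, F j x • rv (ξ j.1 j.2)) := by
    intro i x
    simp only
    refine Finset.sum_congr rfl fun j _ => ?_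
    congr 1
    have e1 := cos_periodic j.1 i x
    have e2 := sin_periodic j.1 i x
    simp only at e1 e2
    simp only [F, f]
    rw [e1, e2, (hψ j).per i x]
  have hint1 : ∀ (j : ι) (g : V → ℝ), Continuous g → Periodic3 g →
      IntegrableOn (fun x => ψ j x * g x) Dom := by
    intro j g hg hgp
    refine Periodic3.integrableOn ?_ ((hψ j).cont.mul hg)
    intro i x
    simp only
    rw [(hψ j).per i x, hgp i x]
  have cosc : ∀ k, Continuous (fun x => Real.cos (ph k x)) := fun k =>
    Real.continuous_cos.comp (ph_contDiff k).continuous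
  have sinc : ∀ k, Continuous (fun x => Real.sin (ph k x)) := fun k =>
    Real.continuous_sin.comp (ph_contDiff k).continuous
  -- the general formula for the modes
  have hmodes : ∀ (g : V → ℝ), Continuous g → Periodic3 g → ∀ i,
      ∫ x in Dom, (∑ j, F j x • rv (ξ j.1 j.2)) i * g x
        = ∑ j, vol⁻¹ * (a j.1 j.2 * (∫ x in Dom, ψ j x * (Real.cos (ph j.1 x) * g x))
          + b j.1 j.2 * (∫ x in Dom, ψ j x * (Real.sin (ph j.1 x) * g x)))
          * rv (ξ j.1 j.2) i := by
    intro g hg hgp i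
    have e : ∀ x, (∑ j, F j x • rv (ξ j.1 j.2)) i * g x
        = ∑ j, (vol⁻¹ * (a j.1 j.2 * (ψ j x * (Real.cos (ph j.1 x) * g x))
          + b j.1 j.2 * (ψ j x * (Real.sin (ph j.1 x) * g x))) * rv (ξ j.1 j.2) i) := by
      intro x
      rw [Finset.sum_apply, Finset.sum_mul]
      refine Finset.sum_congr rfl fun j _ => ?_
      simp only [Pi.smul_apply, smul_eq_mul, F, f]
      ring
    simp only [e]
    have i1 : ∀ j : ι, IntegrableOn (fun x => ψ j x * (Real.cos (ph j.1 x) * g x)) Dom := by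
      intro j
      refine hint1 j _ ((cosc _).mul hg) ?_
      intro i x
      have := cos_periodic j.1 i x
      simp only at this ⊢
      rw [this, hgp i x]
    have i2 : ∀ j : ι, IntegrableOn (fun x => ψ j x * (Real.sin (ph j.1 x) * g x)) Dom := by
      intro j
      refine hint1 j _ ((sinc _).mul hg) ?_
      intro i x
      have := sin_periodic j.1 i x
      simp only at this ⊢
      rw [this, hgp i x]
    rw [integral_finsetSum]
    · refine Finset.sum_congr rfl fun j _ => ?_
      rw [integral_mul_const, integral_const_mul,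
        integral_add ((i1 j).const_mul _) ((i2 j).const_mul _), integral_const_mul,
        integral_const_mul]
    · intro j _
      exact ((((i1 j).const_mul _).add ((i2 j).const_mul _)).const_mul _).mul_const _
  refine ⟨fun x => ∑ j, F j x • rv (ξ j.1 j.2), ?_, hvp, hst.1, hst.2, ?_, ?_,
    no_helicity hFs hFdis, ?_, ?_⟩
  · exact ContDiff.sum fun j _ => (hFs j).smul contDiff_const
  · intro x
    refine (norm_sum_le _ _).trans (Finset.sum_le_sum fun j _ => ?_)
    rw [norm_smul]
    gcongr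
    have h1 : |f j x| ≤ |a j.1 j.2| + |b j.1 j.2| := by
      simp only [f]
      refine (abs_add_le _ _).trans ?_
      rw [abs_mul, abs_mul]
      have c1 := Real.abs_cos_le_one (ph j.1 x)
      have c2 := Real.abs_sin_le_one (ph j.1 x)
      have d1 := abs_nonneg (a j.1 j.2)
      have d2 := abs_nonneg (b j.1 j.2)
      nlinarith
    have h2 : |ψ j x| ≤ vol * (1 / ∫ x in Dom, φ j x) := by
      simp only [ψ]
      have hI := hIpos j
      rw [abs_mul, abs_of_pos (by positivity), abs_of_nonneg (hφ0 _ _)]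
      have := hφ1 j ((N : ℝ) • x)
      calc vol / (∫ x in Dom, φ j x) * φ j ((N : ℝ) • x)
          ≤ vol / (∫ x in Dom, φ j x) * 1 := by gcongr
        _ = vol * (1 / ∫ x in Dom, φ j x) := by ring
    simp only [F]
    rw [Real.norm_eq_abs, abs_mul, abs_mul, abs_of_pos (inv_pos.2 hvol0)]
    have hI := hIpos j
    calc vol⁻¹ * (|f j x| * |ψ j x|)
        ≤ vol⁻¹ * ((|a j.1 j.2| + |b j.1 j.2|) * (vol * (1 / ∫ x in Dom, φ j x))) := by gcongr
      _ = (|a j.1 j.2| + |b j.1 j.2|) * (1 / ∫ x in Dom, φ j x) := by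
        field_simp
  · intro x hx
    have h1 := hfree ((N : ℝ) • x) hx
    refine Finset.sum_eq_zero fun j _ => ?_
    have h2 : φ j ((N : ℝ) • x) = 0 := by
      rcases hφd' none (some j) (by simp) ((N : ℝ) • x) with h | h
      · exact absurd h h1
      · exact h
    simp only [F, ψ]
    rw [h2]
    simp
  · intro l hl i
    have hl' := mem_Bx.1 hl
    have hnegl : -l ∈ Bx K := by
      rw [mem_Bx]; intro i; simp only [Pi.neg_apply, abs_neg]; exact hl' i
    -- summation over the frequencies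
    have hsumgen : ∀ (c : (Fin 3 → ℤ) → Fin 3 → ℝ) (Z : (Fin 3 → ℤ) → V) (σ : ℝ),
        (∀ k ∈ Bx K, Z k = ∑ i, c k i • rv (ξ k i)) →
        ∑ j : ι, vol⁻¹ * (c j.1 j.2 * (((if (j.1 : Fin 3 → ℤ) - l = 0 then vol else 0)
          + σ * (if (j.1 : Fin 3 → ℤ) + l = 0 then vol else 0)) / 2)) * rv (ξ j.1 j.2) i
        = (Z l i + σ * Z (-l) i) / 2 := by
      intro c Z σ hZ
      rw [Fintype.sum_prod_type]
      have e1 : ∀ k : {k // k ∈ Bx K}, ∑ i', vol⁻¹ * (c k i' * (((if (k : Fin 3 → ℤ) - l = 0 then vol else 0)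
          + σ * (if (k : Fin 3 → ℤ) + l = 0 then vol else 0)) / 2)) * rv (ξ k i') i
          = ((if (k : Fin 3 → ℤ) - l = 0 then 1 else 0)
          + σ * (if (k : Fin 3 → ℤ) + l = 0 then 1 else 0)) / 2 * Z k i := by
        intro k
        rw [hZ k k.2, Finset.sum_apply, Finset.mul_sum]
        refine Finset.sum_congr rfl fun i' _ => ?_
        simp only [Pi.smul_apply, smul_eq_mul]
        split_ifs <;> field_simp <;> ring
      rw [Finset.sum_congr rfl fun k _ => e1 k]
      have e2 : ∑ k : {k // k ∈ Bx K}, ((if (k : Fin 3 → ℤ) - l = 0 then 1 else 0)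
          + σ * (if (k : Fin 3 → ℤ) + l = 0 then 1 else 0)) / 2 * Z k i
          = ∑ k ∈ Bx K, ((if k - l = 0 then 1 else 0)
          + σ * (if k + l = 0 then 1 else 0)) / 2 * Z k i :=
        Finset.sum_coe_sort (Bx K) (fun k => ((if k - l = 0 then (1:ℝ) else 0)
          + σ * (if k + l = 0 then 1 else 0)) / 2 * Z k i)
      rw [e2]
      have e3 : ∀ k ∈ Bx K, ((if k - l = 0 then (1:ℝ) else 0)
          + σ * (if k + l = 0 then 1 else 0)) / 2 * Z k i
          = (if k = l then Z k i / 2 else 0) + (if k = -l then σ * Z k i / 2 else 0) := by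
        intro k _
        have q1 : (k - l = 0) ↔ (k = l) := sub_eq_zero
        have q2 : (k + l = 0) ↔ (k = -l) := add_eq_zero_iff_eq_neg
        simp only [q1, q2]
        split_ifs <;> ring
      rw [Finset.sum_congr rfl e3, Finset.sum_add_distrib, Finset.sum_ite_eq', Finset.sum_ite_eq',
        if_pos hl, if_pos hnegl]
      ring
    constructor
    · rw [hmodes _ (cosc l) (cos_periodic l)]
      have e : ∀ j : ι, vol⁻¹ * (a j.1 j.2 * (∫ x in Dom, ψ j x * (Real.cos (ph j.1 x) * Real.cos (ph l x)))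
          + b j.1 j.2 * (∫ x in Dom, ψ j x * (Real.sin (ph j.1 x) * Real.cos (ph l x))))
          * rv (ξ j.1 j.2) i = vol⁻¹ * (a j.1 j.2 * (((if (j.1 : Fin 3 → ℤ) - l = 0 then vol else 0)
          + 1 * (if (j.1 : Fin 3 → ℤ) + l = 0 then vol else 0)) / 2)) * rv (ξ j.1 j.2) i := by
        intro j
        obtain ⟨p1, p2, -, -⟩ := (hψ j).products hN (mem_Bx.1 j.1.2) hl'
        rw [p1, p2]
        ring
      rw [Finset.sum_congr rfl fun j _ => e j, hsumgen a A 1 ha, hAs l hl]
      ring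
    · rw [hmodes _ (sinc l) (sin_periodic l)]
      have e : ∀ j : ι, vol⁻¹ * (a j.1 j.2 * (∫ x in Dom, ψ j x * (Real.cos (ph j.1 x) * Real.sin (ph l x)))
          + b j.1 j.2 * (∫ x in Dom, ψ j x * (Real.sin (ph j.1 x) * Real.sin (ph l x))))
          * rv (ξ j.1 j.2) i = vol⁻¹ * (b j.1 j.2 * (((if (j.1 : Fin 3 → ℤ) - l = 0 then vol else 0)
          + (-1) * (if (j.1 : Fin 3 → ℤ) + l = 0 then vol else 0)) / 2)) * rv (ξ j.1 j.2) i := by
        intro j
        obtain ⟨-, -, p3, p4⟩ := (hψ j).products hN (mem_Bx.1 j.1.2) hl'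
        rw [p3, p4]
        ring
      rw [Finset.sum_congr rfl fun j _ => e j, hsumgen b B (-1) hb, hBs l hl]
      simp only [Pi.neg_apply]
      ring
  · intro l hl hlN i
    have hl2 : ∃ i, (K : ℤ) < |l i| := by
      rw [mem_Bx] at hl
      push Not at hl
      exact hl
    constructor
    · rw [hmodes _ (cosc l) (cos_periodic l)]
      refine Finset.sum_eq_zero fun j _ => ?_
      obtain ⟨p1, p2, -, -⟩ := (hψ j).products_zero hN (mem_Bx.1 j.1.2) hlN hl2
      rw [p1, p2]
      ring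
    · rw [hmodes _ (sinc l) (sin_periodic l)]
      refine Finset.sum_eq_zero fun j _ => ?_
      obtain ⟨-, -, p3, p4⟩ := (hψ j).products_zero hN (mem_Bx.1 j.1.2) hlN hl2
      rw [p3, p4]
      ring

end Pool.Agent.R739.ET
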