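import Pool.Agent.R739.ET.Wr

/-!
# A small calculus for functions of the first two coordinates
-/

open MeasureTheory Set
open scoped ENNReal NNReal Topology Pointwise ContDiff

set_option autoImplicit false

namespace Pool.Agent.R739.ET

open Pool.Agent.H708R2.EulerSign Pool.Agent.H708R2.EulerModes

/-- `f` has the derivative `a dy₀ + b dy₁` at `y` -/
def HD (f : V → ℝ) (a b : ℝ) (y : V) : Prop :=
  HasFDerivAt f (a • (ContinuousLinearMap.proj 0 : V →L[ℝ] ℝ)
    + b • (ContinuousLinearMap.proj 1 : V →L[ℝ] ℝ)) y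

lemma HD.congr {f : V → ℝ} {a b a' b' : ℝ} {y : V} (h : HD f a b y) (ha : a = a') (hb : b = b') :
    HD f a' b' y := by
  rw [← ha, ← hb]; exact h

lemma HD.const (k : ℝ) (y : V) : HD (fun _ => k) 0 0 y := by
  unfold HD
  simp only [zero_smul, add_zero]
  exact hasFDerivAt_const k y

lemma HD.x0 (y : V) : HD (fun z => z 0) 1 0 y := by
  unfold HD
  simp only [zero_smul, add_zero, one_smul]
  exact (ContinuousLinearMap.proj (R := ℝ) (φ := fun _ : Fin 3 => ℝ) 0).hasFDerivAt

lemma HD.x1 (y : V) : HD (fun z => z 1) 0 1 y := by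
  unfold HD
  simp only [zero_smul, zero_add, one_smul]
  exact (ContinuousLinearMap.proj (R := ℝ) (φ := fun _ : Fin 3 => ℝ) 1).hasFDerivAt

lemma HD.add {f g : V → ℝ} {a b a' b' : ℝ} {y : V} (hf : HD f a b y) (hg : HD g a' b' y) :
    HD (fun z => f z + g z) (a + a') (b + b') y := by
  unfold HD at *
  refine (HasFDerivAt.fun_add hf hg).congr_fderiv ?_
  module

lemma HD.sub {f g : V → ℝ} {a b a' b' : ℝ} {y : V} (hf : HD f a b y) (hg : HD g a' b' y) :
    HD (fun z => f z - g z) (a - a') (b - b') y := by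
  unfold HD at *
  refine (HasFDerivAt.fun_sub hf hg).congr_fderiv ?_
  module

lemma HD.mul {f g : V → ℝ} {a b a' b' : ℝ} {y : V} (hf : HD f a b y) (hg : HD g a' b' y) :
    HD (fun z => f z * g z) (f y * a' + g y * a) (f y * b' + g y * b) y := by
  unfold HD at *
  refine (HasFDerivAt.fun_mul hf hg).congr_fderiv ?_
  module

lemma HD.const_mul {f : V → ℝ} {a b : ℝ} {y : V} (k : ℝ) (hf : HD f a b y) :
    HD (fun z => k * f z) (k * a) (k * b) y := by
  refine ((HD.const k y).mul hf).congr ?_ ?_ <;> ring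

lemma HD.neg {f : V → ℝ} {a b : ℝ} {y : V} (hf : HD f a b y) :
    HD (fun z => -f z) (-a) (-b) y := by
  unfold HD at *
  refine (HasFDerivAt.fun_neg hf).congr_fderiv ?_
  module

lemma HD.comp {φ : ℝ → ℝ} {f : V → ℝ} {a b d : ℝ} {y : V} (hφ : HasDerivAt φ d (f y))
    (hf : HD f a b y) : HD (fun z => φ (f z)) (d * a) (d * b) y := by
  unfold HD at *
  refine (hφ.comp_hasFDerivAt y hf).congr_fderiv ?_
  module

lemma HD.rad (y : V) : HD rad (2 * y 0) (2 * y 1) y := by
  have h : HD (fun z => z 0 * z 0 + z 1 * z 1) (2 * y 0) (2 * y 1) y := by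
    refine (((HD.x0 y).mul (HD.x0 y)).add ((HD.x1 y).mul (HD.x1 y))).congr ?_ ?_ <;> ring
  have e : ET.rad = fun z : V => z 0 * z 0 + z 1 * z 1 := by
    ext z; unfold ET.rad; ring
  rw [e]; exact h

lemma HD.fderiv {f : V → ℝ} {a b : ℝ} {y : V} (hf : HD f a b y) (e : V) :
    fderiv ℝ f y e = a * e 0 + b * e 1 := by
  rw [HasFDerivAt.fderiv hf]
  simp

lemma HD.differentiableAt {f : V → ℝ} {a b : ℝ} {y : V} (hf : HD f a b y) :
    DifferentiableAt ℝ f y := HasFDerivAt.differentiableAt hf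

/-- the derivative of a vector field from the derivatives of the components -/
lemma fderiv_vec {v : V → V} {y : V} {a b : Fin 3 → ℝ} (h : ∀ i, HD (fun z => v z i) (a i) (b i) y)
    (e : V) (i : Fin 3) : fderiv ℝ v y e i = a i * e 0 + b i * e 1 := by
  have h1 : HasFDerivAt v (ContinuousLinearMap.pi fun i =>
      (a i • (ContinuousLinearMap.proj 0 : V →L[ℝ] ℝ)
        + b i • (ContinuousLinearMap.proj 1 : V →L[ℝ] ℝ))) y := by
    rw [hasFDerivAt_pi]
    exact fun i => h i
  rw [h1.fderiv]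
  simp

lemma grad_vec {v : V → V} {y : V} {a b : Fin 3 → ℝ} (h : ∀ i, HD (fun z => v z i) (a i) (b i) y)
    (i j : Fin 3) : grad v y i j = ![a i, b i, 0] j := by
  show fderiv ℝ v y (Pi.single j 1) i = _
  rw [fderiv_vec h]
  fin_cases j <;> simp

end Pool.Agent.R739.ET
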