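import Pool.Agent.R739.ET.Resc
import Pool.Agent.H708R2.EulerModes.Main

/-!
# Closeness in negative Sobolev norms
-/

open MeasureTheory Set
open scoped ENNReal NNReal Topology Pointwise ContDiff

set_option autoImplicit false

namespace Pool.Agent.R739.ET

open Pool.Agent.H708R2.EulerSign Pool.Agent.H708R2.EulerModes

lemma hneg {u₀ v : V → V} (hper : Periodic3 u₀) (hL2 : MemLp u₀ 2 (volume.restrict cube))
    (hvp : Periodic3 v) (hvc : Continuous v) {K' N : ℕ} (hNK : K' ≤ N) {s ε M : ℝ} (hs : 0 < s)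
    (hb : ∀ i, ∫ x in Dom, v x i ^ 2 ≤ M)
    (hvm : ∀ l ∈ Bx K', ∀ i,
      ∫ x in Dom, v x i * Real.cos (ph l x) = ∫ x in Dom, u₀ x i * Real.cos (ph l x) ∧
      ∫ x in Dom, v x i * Real.sin (ph l x) = ∫ x in Dom, u₀ x i * Real.sin (ph l x))
    (hvz : ∀ l : Fin 3 → ℤ, l ∉ Bx K' → (∀ i, |l i| + K' < N) → ∀ i,
      ∫ x in Dom, v x i * Real.cos (ph l x) = 0 ∧ ∫ x in Dom, v x i * Real.sin (ph l x) = 0)
    (w1 : (1 + ((N - K' : ℕ) : ℝ) ^ 2) ^ (-s) * (2 * (3 * ((volume Dom).toReal * M))) ≤ ε ^ 2 / 2)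
    (w2 : (1 + (K' : ℝ) ^ 2) ^ (-s) *
      (2 * ∑ i, (volume Dom).toReal * ∫ x in Dom, (u₀ x i) ^ 2) ≤ ε ^ 2 / 2) :
    HNegClose s ε v u₀ := by
  have hu2 := memLp_dom hper hL2
  set vol : ℝ := (volume Dom).toReal with hvol
  have hvol0 : 0 < vol := vol_pos
  set Eu : ℝ := ∑ i, vol * ∫ x in Dom, (u₀ x i) ^ 2 with hEu
  obtain ⟨C, hC0, hC⟩ := hvp.bounded hvc
  have hv2 : ∀ i, MemLp (fun x => v x i) 2 (volume.restrict Dom) := by
    intro i
    have hfin : IsFiniteMeasure (volume.restrict Dom : Measure V) := by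
      constructor
      rw [Measure.restrict_apply_univ]
      exact dom_lt_top
    refine MemLp.of_bound ((continuous_apply i).comp hvc).aestronglyMeasurable C
      (Filter.Eventually.of_forall fun x => ?_)
    exact (norm_le_pi_norm (v x) i).trans (hC x)
  intro S
  have hsubp : ∀ i, Periodic3 (fun x => v x i - u₀ x i) := by
    intro i j x; simp only; rw [hvp j x, hper j x]
  have vi : ∀ i, Integrable (fun x => v x i) (volume.restrict Dom) := fun i =>
    (hv2 i).integrable (by norm_num)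
  have ui : ∀ i, Integrable (fun x => u₀ x i) (volume.restrict Dom) := fun i =>
    (memLp_comp hu2 i).integrable (by norm_num)
  have mulc : ∀ (g : V → ℝ) (l : Fin 3 → ℤ), Integrable g (volume.restrict Dom) →
      Integrable (fun x => g x * Real.cos (ph l x)) (volume.restrict Dom) := by
    intro g l hg
    refine hg.mul_bdd (c := 1)
      (Real.continuous_cos.comp (ph_contDiff l).continuous).aestronglyMeasurable
      (Filter.Eventually.of_forall fun x => ?_)
    exact Real.abs_cos_le_one _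
  have muls : ∀ (g : V → ℝ) (l : Fin 3 → ℤ), Integrable g (volume.restrict Dom) →
      Integrable (fun x => g x * Real.sin (ph l x)) (volume.restrict Dom) := by
    intro g l hg
    refine hg.mul_bdd (c := 1)
      (Real.continuous_sin.comp (ph_contDiff l).continuous).aestronglyMeasurable
      (Filter.Eventually.of_forall fun x => ?_)
    exact Real.abs_sin_le_one _
  have hcd : ∀ l i, cosCoeff l (fun x => v x i - u₀ x i)
      = (∫ x in Dom, v x i * Real.cos (ph l x)) - ∫ x in Dom, u₀ x i * Real.cos (ph l x) := by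
    intro l i
    rw [cosCoeff_eq (hsubp i), ← integral_sub (mulc _ l (vi i)) (mulc _ l (ui i))]
    congr 1
    ext1 x
    ring
  have hsd : ∀ l i, sinCoeff l (fun x => v x i - u₀ x i)
      = (∫ x in Dom, v x i * Real.sin (ph l x)) - ∫ x in Dom, u₀ x i * Real.sin (ph l x) := by
    intro l i
    rw [sinCoeff_eq (hsubp i), ← integral_sub (muls _ l (vi i)) (muls _ l (ui i))]
    congr 1
    ext1 x
    ring
  set av : (Fin 3 → ℤ) → Fin 3 → ℝ := fun l i =>
    (∫ x in Dom, v x i * Real.cos (ph l x)) ^ 2 + (∫ x in Dom, v x i * Real.sin (ph l x)) ^ 2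
    with hav
  set au : (Fin 3 → ℤ) → Fin 3 → ℝ := fun l i =>
    (∫ x in Dom, u₀ x i * Real.cos (ph l x)) ^ 2 + (∫ x in Dom, u₀ x i * Real.sin (ph l x)) ^ 2
    with hau
  have hav0 : ∀ l i, 0 ≤ av l i := fun l i => by positivity
  have hau0 : ∀ l i, 0 ≤ au l i := fun l i => by positivity
  -- weights
  have hwt : ∀ (l : Fin 3 → ℤ) (n : ℕ), (∃ i, (n : ℤ) ≤ |l i|) →
      (1 + ∑ i, (l i : ℝ) ^ 2) ^ (-s) ≤ (1 + (n : ℝ) ^ 2) ^ (-s) := by
    rintro l n ⟨i, hi⟩
    apply Real.rpow_le_rpow_of_nonpos (by positivity) _ (by linarith)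
    have h1 : (l i : ℝ) ^ 2 ≤ ∑ i, (l i : ℝ) ^ 2 :=
      Finset.single_le_sum (f := fun i => (l i : ℝ) ^ 2) (fun _ _ => sq_nonneg _)
        (Finset.mem_univ i)
    have h2 : (n : ℝ) ≤ |(l i : ℝ)| := by exact_mod_cast hi
    have h3 : (n : ℝ) ^ 2 ≤ (l i : ℝ) ^ 2 := by
      rw [← sq_abs (l i : ℝ)]
      gcongr
    linarith
  have hterm : ∀ l ∈ S, (1 + ∑ i, (l i : ℝ) ^ 2) ^ (-s) *
      ∑ i, (cosCoeff l (fun x => v x i - u₀ x i) ^ 2 + sinCoeff l (fun x => v x i - u₀ x i) ^ 2)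
      ≤ ∑ i, ((1 + ((N - K' : ℕ) : ℝ) ^ 2) ^ (-s) * (2 * av l i)
        + (1 + (K' : ℝ) ^ 2) ^ (-s) * (2 * au l i)) := by
    intro l _
    rw [Finset.mul_sum]
    refine Finset.sum_le_sum fun i _ => ?_
    have hw0 : 0 ≤ (1 + ∑ i, (l i : ℝ) ^ 2) ^ (-s) := by positivity
    have hr : 0 ≤ (1 + ((N - K' : ℕ) : ℝ) ^ 2) ^ (-s) * (2 * av l i)
        + (1 + (K' : ℝ) ^ 2) ^ (-s) * (2 * au l i) := by
      have := hav0 l i
      have := hau0 l i
      positivity
    by_cases hl : l ∈ Bx K'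
    · obtain ⟨h1, h2⟩ := hvm l hl i
      have z1 : cosCoeff l (fun x => v x i - u₀ x i) = 0 := by
        rw [hcd, h1]; simp
      have z2 : sinCoeff l (fun x => v x i - u₀ x i) = 0 := by
        rw [hsd, h2]; simp
      rw [z1, z2]
      simpa using hr
    · have hbig : ∃ i, ((K' : ℕ) : ℤ) ≤ |l i| := by
        rw [mem_Bx] at hl
        push Not at hl
        obtain ⟨i, hi⟩ := hl
        exact ⟨i, hi.le⟩
      have hw1 := hwt l K' hbig
      have hsplit : cosCoeff l (fun x => v x i - u₀ x i) ^ 2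
          + sinCoeff l (fun x => v x i - u₀ x i) ^ 2 ≤ 2 * av l i + 2 * au l i := by
        rw [hcd, hsd]
        simp only [hav, hau]
        nlinarith [sq_nonneg ((∫ x in Dom, v x i * Real.cos (ph l x))
          + ∫ x in Dom, u₀ x i * Real.cos (ph l x)),
          sq_nonneg ((∫ x in Dom, v x i * Real.sin (ph l x))
          + ∫ x in Dom, u₀ x i * Real.sin (ph l x))]
      have hfirst : (1 + ∑ i, (l i : ℝ) ^ 2) ^ (-s) * (2 * av l i)
          ≤ (1 + ((N - K' : ℕ) : ℝ) ^ 2) ^ (-s) * (2 * av l i) := by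
        by_cases hfar : ∃ i, ((N - K' : ℕ) : ℤ) ≤ |l i|
        · have := hwt l (N - K') hfar
          have h0 := hav0 l i
          gcongr
        · have hz : av l i = 0 := by
            push Not at hfar
            have hh : ∀ i, |l i| + K' < N := by
              intro i
              have := hfar i
              omega
            obtain ⟨y1, y2⟩ := hvz l hl hh i
            simp only [hav]
            rw [y1, y2]
            ring
          rw [hz]
          simp
      have hsecond : (1 + ∑ i, (l i : ℝ) ^ 2) ^ (-s) * (2 * au l i)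
          ≤ (1 + (K' : ℝ) ^ 2) ^ (-s) * (2 * au l i) := by
        have h0 := hau0 l i
        gcongr
      calc (1 + ∑ i, (l i : ℝ) ^ 2) ^ (-s) *
            (cosCoeff l (fun x => v x i - u₀ x i) ^ 2 + sinCoeff l (fun x => v x i - u₀ x i) ^ 2)
          ≤ (1 + ∑ i, (l i : ℝ) ^ 2) ^ (-s) * (2 * av l i + 2 * au l i) := by gcongr
        _ = (1 + ∑ i, (l i : ℝ) ^ 2) ^ (-s) * (2 * av l i)
            + (1 + ∑ i, (l i : ℝ) ^ 2) ^ (-s) * (2 * au l i) := by ring
        _ ≤ _ := add_le_add hfirst hsecond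
  refine (Finset.sum_le_sum hterm).trans ?_
  rw [Finset.sum_comm]
  simp only [Finset.sum_add_distrib, ← Finset.mul_sum]
  -- Bessel
  have b1 : ∑ i, ∑ l ∈ S, av l i ≤ 3 * (vol * M) := by
    have hb' : ∀ i, ∑ l ∈ S, av l i ≤ vol * M := by
      intro i
      refine (bessel (hv2 i) S).trans ?_
      gcongr
      exact hb i
    calc ∑ i, ∑ l ∈ S, av l i ≤ ∑ _i : Fin 3, vol * M :=
          Finset.sum_le_sum fun i _ => hb' i
      _ = 3 * (vol * M) := by simp
  have b2 : ∑ i, ∑ l ∈ S, au l i ≤ Eu :=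
    Finset.sum_le_sum fun i _ => bessel (memLp_comp hu2 i) S
  calc (1 + ((N - K' : ℕ) : ℝ) ^ 2) ^ (-s) * (2 * ∑ i, ∑ l ∈ S, av l i)
        + (1 + (K' : ℝ) ^ 2) ^ (-s) * (2 * ∑ i, ∑ l ∈ S, au l i)
      ≤ (1 + ((N - K' : ℕ) : ℝ) ^ 2) ^ (-s) * (2 * (3 * (vol * M)))
        + (1 + (K' : ℝ) ^ 2) ^ (-s) * (2 * Eu) := by gcongr
    _ ≤ ε ^ 2 / 2 + ε ^ 2 / 2 := add_le_add w1 w2
    _ = ε ^ 2 := by ring

end Pool.Agent.R739.ET
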