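import Pool.Agent.H708R2.EulerSign.Uniq

/-!
# Uniqueness of classical solutions

The proof of `Pool.Agent.H708R2.EulerSign.unique` with a pressure for both solutions.
-/

open MeasureTheory Set
open scoped ENNReal NNReal Topology Pointwise ContDiff

set_option autoImplicit false

namespace Pool.Agent.R739.ET

open Pool.Agent.H708R2.EulerSign

section energy

variable {T : ℝ} {w : ℝ → V → V} {q : ℝ → V → ℝ} {u : ℝ → V → V} {p : ℝ → V → ℝ}

/-- The pointwise energy identity for the difference of a classical solution `(w, q)` and a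
second classical solution `u` with pressure `p`. -/
lemma dS_eq' (hw : IsClassicalSolution (Ico 0 T) w q)
    (hu : ContDiff ℝ 1 (fun z : ℝ × V => u z.1 z.2))
    (hudiv : ∀ t x, divergence (u t) x = 0)
    (hps : ∀ t, ContDiff ℝ 1 (p t)) (hpp : ∀ t, Periodic3 (p t))
    (hueq : ∀ t x i, deriv (fun s => u s x i) t
        + ∑ j, u t x j * fderiv ℝ (u t) x (Pi.single j 1) i
        = - fderiv ℝ (p t) x (Pi.single i 1)) {t : ℝ} (ht : t ∈ Ioo 0 T)
    (x : V) :
    dS w u t x = -divergence (fun y => sq3 (w t y - u t y) • w t y) x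
      - 2 * divergence (fun y => (q t y - p t y) • (w t y - u t y)) x
      - ∑ i, 2 * (w t x - u t x) i * fderiv ℝ (u t) x (w t x - u t x) i := by
  have htI : t ∈ Ico 0 T := ⟨ht.1.le, ht.2⟩
  have hwt : ContDiff ℝ 1 (w t) := contDiff_slice hw.contDiffOn_u htI
  have hqt : ContDiff ℝ 1 (q t) := contDiff_slice hw.contDiffOn_p htI
  have hut : ContDiff ℝ 1 (u t) := hu.comp (contDiff_const.prodMk contDiff_id)
  have dw : DifferentiableAt ℝ (w t) x := hwt.differentiable one_ne_zero x
  have dq0 : DifferentiableAt ℝ (q t) x := hqt.differentiable one_ne_zero x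
  have dp0 : DifferentiableAt ℝ (p t) x := (hps t).differentiable one_ne_zero x
  have dq : DifferentiableAt ℝ (fun y => q t y - p t y) x := dq0.sub dp0
  have hr : ∀ e, fderiv ℝ (fun y => q t y - p t y) x e
      = fderiv ℝ (q t) x e - fderiv ℝ (p t) x e := by
    intro e
    rw [(dq0.hasFDerivAt.fun_sub dp0.hasFDerivAt).fderiv]
    rfl
  have du : DifferentiableAt ℝ (u t) x := hut.differentiable one_ne_zero x
  have dW : DifferentiableAt ℝ (fun y => w t y - u t y) x := dw.sub du
  have hmem : Ico 0 T ×ˢ (univ : Set V) ∈ 𝓝 (t, x) :=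
    prod_mem_nhds (Ico_mem_nhds ht.1 ht.2) Filter.univ_mem
  -- time derivatives
  have hline : HasDerivAt (fun s : ℝ => ((s, x) : ℝ × V)) (1, 0) t :=
    (hasDerivAt_id t).prodMk (hasDerivAt_const t x)
  have hwtime : DifferentiableAt ℝ (fun s => w s x) t := by
    have h1 : DifferentiableAt ℝ (fun z : ℝ × V => w z.1 z.2) (t, x) :=
      (hw.contDiffOn_u.contDiffAt hmem).differentiableAt one_ne_zero
    exact (h1.hasFDerivAt.comp_hasDerivAt t hline).differentiableAt
  have hutime : DifferentiableAt ℝ (fun s => u s x) t := by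
    have h1 : DifferentiableAt ℝ (fun z : ℝ × V => u z.1 z.2) (t, x) :=
      hu.differentiable one_ne_zero (t, x)
    exact (h1.hasFDerivAt.comp_hasDerivAt t hline).differentiableAt
  have hwi : ∀ i, HasDerivAt (fun s => w s x i)
      (-(fderiv ℝ (w t) x (w t x) i) - fderiv ℝ (q t) x (Pi.single i 1)) t := by
    intro i
    have h1 : HasDerivAt (fun s => w s x i) (deriv (fun s => w s x i) t) t :=
      (hasDerivAt_pi.1 hwtime.hasDerivAt i).differentiableAt.hasDerivAt
    have h2 := hw.momentum t htI x i
    rw [derivWithin_of_mem_nhds (Ico_mem_nhds ht.1 ht.2), sum_mul_clm] at h2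
    have h3 : deriv (fun s => w s x i) t
        = -(fderiv ℝ (w t) x (w t x) i) - fderiv ℝ (q t) x (Pi.single i 1) := by linarith
    rwa [h3] at h1
  have hui : ∀ i, HasDerivAt (fun s => u s x i)
      (-(fderiv ℝ (u t) x (u t x) i) - fderiv ℝ (p t) x (Pi.single i 1)) t := by
    intro i
    have h1 : HasDerivAt (fun s => u s x i) (deriv (fun s => u s x i) t) t :=
      (hasDerivAt_pi.1 hutime.hasDerivAt i).differentiableAt.hasDerivAt
    have h2 := hueq t x i
    rw [sum_mul_clm] at h2
    have h3 : deriv (fun s => u s x i) t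
        = -(fderiv ℝ (u t) x (u t x) i) - fderiv ℝ (p t) x (Pi.single i 1) := by linarith
    rwa [h3] at h1
  have hSt : HasDerivAt (fun s => sq3 (w s x - u s x))
      (∑ i, 2 * (w t x - u t x) i * ((-(fderiv ℝ (w t) x (w t x) i)
        - fderiv ℝ (q t) x (Pi.single i 1)) - (-(fderiv ℝ (u t) x (u t x) i)
        - fderiv ℝ (p t) x (Pi.single i 1)))) t := by
    unfold sq3
    refine HasDerivAt.fun_sum fun i _ => ?_
    have h := ((hwi i).sub (hui i)).pow 2
    refine h.congr_deriv ?_
    simp
  rw [(hasDerivAt_S hw hu ht x).unique hSt]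
  -- space derivatives
  have hSd : HasFDerivAt (fun y => sq3 (w t y - u t y))
      ((∑ i, (2 * (w t x - u t x) i) • (ContinuousLinearMap.proj i : V →L[ℝ] ℝ)) ∘L
        (fderiv ℝ (w t) x - fderiv ℝ (u t) x)) x :=
    HasFDerivAt.comp (g := sq3) (f := fun y => w t y - u t y) x
      (hasFDerivAt_sq3 (w t x - u t x)) (dw.hasFDerivAt.sub du.hasFDerivAt)
  rw [divergence_smul hSd.differentiableAt dw, divergence_smul dq dW, hSd.fderiv,
    hw.div_free t htI]
  have hWdiv : divergence (fun y => w t y - u t y) x = 0 := by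
    have h1 : fderiv ℝ (fun y => w t y - u t y) x = fderiv ℝ (w t) x - fderiv ℝ (u t) x :=
      (dw.hasFDerivAt.sub du.hasFDerivAt).fderiv
    have h2 := hw.div_free t htI x
    have h3 := hudiv t x
    rw [divergence_eq_sum] at h2 h3 ⊢
    rw [h1]
    simp only [sub_apply, Pi.sub_apply, Finset.sum_sub_distrib, h2, h3,
      sub_zero]
  rw [hWdiv, ← sum_mul_clm' (fderiv ℝ (fun y => q t y - p t y) x)]
  have hlin : ∀ i, fderiv ℝ (u t) x (w t x - u t x) i
      = fderiv ℝ (u t) x (w t x) i - fderiv ℝ (u t) x (u t x) i := by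
    intro i; rw [map_sub]; rfl
  simp only [hr, hlin, ContinuousLinearMap.comp_apply, sum_apply,
    smul_apply, sub_apply, ContinuousLinearMap.proj_apply,
    Pi.sub_apply, smul_eq_mul, mul_zero, zero_add, Finset.mul_sum, ← Finset.sum_neg_distrib,
    ← Finset.sum_sub_distrib]
  refine Finset.sum_congr rfl fun i _ => ?_
  ring

/-- The derivative of the energy of the difference is controlled by the energy. -/
lemma en_deriv_le' (hw : IsClassicalSolution (Ico 0 T) w q)
    (hu : ContDiff ℝ 1 (fun z : ℝ × V => u z.1 z.2)) (hup : ∀ t, Periodic3 (u t))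
    (hudiv : ∀ t x, divergence (u t) x = 0)
    (hps : ∀ t, ContDiff ℝ 1 (p t)) (hpp : ∀ t, Periodic3 (p t))
    (hueq : ∀ t x i, deriv (fun s => u s x i) t
        + ∑ j, u t x j * fderiv ℝ (u t) x (Pi.single j 1) i
        = - fderiv ℝ (p t) x (Pi.single i 1)) {K : ℝ}
    (hK : ∀ t ∈ Ico 0 T, ∀ x i j, |grad (u t) x i j| ≤ K) {t : ℝ} (ht : t ∈ Ioo 0 T) :
    |∫ x in Dom, dS w u t x| ≤ 6 * K * en w u t := by
  have htI : t ∈ Ico 0 T := ⟨ht.1.le, ht.2⟩
  have hwt : ContDiff ℝ 1 (w t) := contDiff_slice hw.contDiffOn_u htI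
  have hqt : ContDiff ℝ 1 (q t) := contDiff_slice hw.contDiffOn_p htI
  have hut : ContDiff ℝ 1 (u t) := hu.comp (contDiff_const.prodMk contDiff_id)
  have hW : ContDiff ℝ 1 (fun y => w t y - u t y) := hwt.sub hut
  have hWp : Periodic3 (fun y => w t y - u t y) := by
    intro i x
    simp only
    rw [hw.periodic_u t htI i x, hup t i x]
  have g1 : ContDiff ℝ 1 (fun y => sq3 (w t y - u t y) • w t y) :=
    (sq3_contDiff.comp hW).smul hwt
  have g1p : Periodic3 (fun y => sq3 (w t y - u t y) • w t y) := by
    intro i x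
    simp only
    rw [hw.periodic_u t htI i x, hup t i x]
  have g2 : ContDiff ℝ 1 (fun y => (q t y - p t y) • (w t y - u t y)) :=
    (hqt.sub (hps t)).smul hW
  have g2p : Periodic3 (fun y => (q t y - p t y) • (w t y - u t y)) := by
    intro i x
    simp only
    rw [hw.periodic_u t htI i x, hup t i x, hw.periodic_p t htI i x, hpp t i x]
  set Rm : V → ℝ := fun x => ∑ i, 2 * (w t x - u t x) i * fderiv ℝ (u t) x (w t x - u t x) i
    with hRm
  have hRc : Continuous Rm := by
    have hf : Continuous (fun x => fderiv ℝ (u t) x (w t x - u t x)) :=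
      (hut.continuous_fderiv one_ne_zero).clm_apply hW.continuous
    refine continuous_finsetSum _ fun i _ => ?_
    exact (continuous_const.mul ((continuous_apply i).comp hW.continuous)).mul
      ((continuous_apply i).comp hf)
  have hRp : Periodic3 Rm := by
    intro i x
    simp only [hRm]
    rw [hw.periodic_u t htI i x, hup t i x, (hup t).fderiv i x]
  have i1 : IntegrableOn (fun x => divergence (fun y => sq3 (w t y - u t y) • w t y) x) Dom :=
    g1p.trace.integrableOn (continuous_grad g1).matrix_trace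
  have i2 : IntegrableOn (fun x => divergence (fun y => (q t y - p t y) • (w t y - u t y)) x) Dom :=
    g2p.trace.integrableOn (continuous_grad g2).matrix_trace
  have iR : IntegrableOn Rm Dom := hRp.integrableOn hRc
  have e1 : ∫ x in Dom, dS w u t x = -∫ x in Dom, Rm x := by
    have : ∀ x, dS w u t x = -divergence (fun y => sq3 (w t y - u t y) • w t y) x
        - 2 * divergence (fun y => (q t y - p t y) • (w t y - u t y)) x - Rm x :=
      fun x => dS_eq' hw hu hudiv hps hpp hueq ht x
    simp_rw [this]
    have a1 : ∫ x in Dom, (-divergence (fun y => sq3 (w t y - u t y) • w t y) x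
        - 2 * divergence (fun y => (q t y - p t y) • (w t y - u t y)) x - Rm x)
        = (∫ x in Dom, (-divergence (fun y => sq3 (w t y - u t y) • w t y) x
        - 2 * divergence (fun y => (q t y - p t y) • (w t y - u t y)) x)) - ∫ x in Dom, Rm x :=
      integral_sub (i1.neg.sub (i2.const_mul 2)) iR
    have a2 : ∫ x in Dom, (-divergence (fun y => sq3 (w t y - u t y) • w t y) x
        - 2 * divergence (fun y => (q t y - p t y) • (w t y - u t y)) x)
        = (∫ x in Dom, -divergence (fun y => sq3 (w t y - u t y) • w t y) x)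
        - ∫ x in Dom, 2 * divergence (fun y => (q t y - p t y) • (w t y - u t y)) x :=
      integral_sub i1.neg (i2.const_mul 2)
    rw [a1, a2, integral_neg, integral_const_mul, integral_divergence_eq_zero g1 g1p,
      integral_divergence_eq_zero g2 g2p]
    simp
  rw [e1, abs_neg]
  have hK0 : 0 ≤ K := (abs_nonneg _).trans (hK t htI 0 0 0)
  have hpt : ∀ x, ‖Rm x‖ ≤ 6 * K * sq3 (w t x - u t x) := fun x =>
    quad_bound (L := fderiv ℝ (u t) x) (fun i j => hK t htI x i j) (w t x - u t x)
  have iS : IntegrableOn (fun x => 6 * K * sq3 (w t x - u t x)) Dom := by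
    have : Periodic3 (fun x => sq3 (w t x - u t x)) := by
      intro i x
      simp only
      rw [hw.periodic_u t htI i x, hup t i x]
    exact (this.integrableOn ((sq3_contDiff (n := 1)).comp hW).continuous).const_mul (6 * K)
  have := norm_integral_le_of_norm_le iS (Filter.Eventually.of_forall hpt)
  rw [integral_const_mul] at this
  exact this

/-- Uniqueness: a classical solution on `[0, T)` which coincides at one time with a solution with bounded gradient coincides with it at all times. -/
theorem unique' (hw : IsClassicalSolution (Ico 0 T) w q)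
    (hu : ContDiff ℝ 1 (fun z : ℝ × V => u z.1 z.2)) (hup : ∀ t, Periodic3 (u t))
    (hudiv : ∀ t x, divergence (u t) x = 0)
    (hps : ∀ t, ContDiff ℝ 1 (p t)) (hpp : ∀ t, Periodic3 (p t))
    (hueq : ∀ t x i, deriv (fun s => u s x i) t
        + ∑ j, u t x j * fderiv ℝ (u t) x (Pi.single j 1) i
        = - fderiv ℝ (p t) x (Pi.single i 1)) {K : ℝ}
    (hK : ∀ t ∈ Ico 0 T, ∀ x i j, |grad (u t) x i j| ≤ K) {t₀ : ℝ} (ht₀ : t₀ ∈ Ico 0 T)
    (h0 : w t₀ = u t₀) : ∀ t ∈ Ico 0 T, w t = u t := by
  have hcont := en_continuousOn hw hu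
  have hE0 : en w u t₀ = 0 := by
    unfold en
    rw [h0]
    simp [sq3]
  have hEz : ∀ t ∈ Ico 0 T, en w u t = 0 := by
    intro t ht
    refine le_antisymm ?_ (en_nonneg t)
    rcases le_total t₀ t with htt | htt
    · -- forward in time
      have hanti : AntitoneOn (fun s => en w u s * Real.exp (-(6 * K) * s)) (Ico t₀ T) := by
        have hder : ∀ s ∈ interior (Ico t₀ T), HasDerivAt
            (fun s => en w u s * Real.exp (-(6 * K) * s))
            ((∫ x in Dom, dS w u s x) * Real.exp (-(6 * K) * s)
              + en w u s * (Real.exp (-(6 * K) * s) * (-(6 * K) * 1))) s := by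
          intro s hs
          rw [interior_Ico] at hs
          have hs' : s ∈ Ioo 0 T := ⟨ht₀.1.trans_lt hs.1, hs.2⟩
          exact (en_hasDerivAt hw hu hs').mul (((hasDerivAt_id s).const_mul (-(6 * K))).exp)
        refine antitoneOn_of_deriv_nonpos (convex_Ico _ _) ?_ ?_ ?_
        · exact (hcont.mono (Ico_subset_Ico_left ht₀.1)).mul (by fun_prop)
        · intro s hs
          exact (hder s hs).differentiableAt.differentiableWithinAt
        · intro s hs
          rw [(hder s hs).deriv]
          rw [interior_Ico] at hs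
          have hs' : s ∈ Ioo 0 T := ⟨ht₀.1.trans_lt hs.1, hs.2⟩
          have h1 := (abs_le.1 (en_deriv_le' hw hu hup hudiv hps hpp hueq hK hs')).2
          have h2 : 0 < Real.exp (-(6 * K) * s) := Real.exp_pos _
          nlinarith
      have h1 := hanti ⟨le_rfl, ht₀.2⟩ ⟨htt, ht.2⟩ htt
      simp only [hE0, zero_mul] at h1
      exact nonpos_of_mul_nonpos_left h1 (Real.exp_pos _)
    · -- backward in time
      have hmono : MonotoneOn (fun s => en w u s * Real.exp ((6 * K) * s)) (Icc 0 t₀) := by
        have hder : ∀ s ∈ interior (Icc 0 t₀), HasDerivAt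
            (fun s => en w u s * Real.exp ((6 * K) * s))
            ((∫ x in Dom, dS w u s x) * Real.exp ((6 * K) * s)
              + en w u s * (Real.exp ((6 * K) * s) * ((6 * K) * 1))) s := by
          intro s hs
          rw [interior_Icc] at hs
          have hs' : s ∈ Ioo 0 T := ⟨hs.1, hs.2.trans ht₀.2⟩
          exact (en_hasDerivAt hw hu hs').mul (((hasDerivAt_id s).const_mul (6 * K)).exp)
        refine monotoneOn_of_deriv_nonneg (convex_Icc _ _) ?_ ?_ ?_
        · exact (hcont.mono (Icc_subset_Ico_right ht₀.2)).mul (by fun_prop)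
        · intro s hs
          exact (hder s hs).differentiableAt.differentiableWithinAt
        · intro s hs
          rw [(hder s hs).deriv]
          rw [interior_Icc] at hs
          have hs' : s ∈ Ioo 0 T := ⟨hs.1, hs.2.trans ht₀.2⟩
          have h1 := (abs_le.1 (en_deriv_le' hw hu hup hudiv hps hpp hueq hK hs')).1
          have h2 : 0 < Real.exp ((6 * K) * s) := Real.exp_pos _
          nlinarith
      have h1 := hmono ⟨ht.1, htt⟩ ⟨ht₀.1, le_rfl⟩ htt
      simp only [hE0, zero_mul] at h1
      exact nonpos_of_mul_nonpos_left h1 (Real.exp_pos _)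
  intro t ht
  have hwt : ContDiff ℝ 1 (w t) := contDiff_slice hw.contDiffOn_u ht
  have hut : ContDiff ℝ 1 (u t) := hu.comp (contDiff_const.prodMk contDiff_id)
  have hW : ContDiff ℝ 1 (fun y => w t y - u t y) := hwt.sub hut
  have hper : Periodic3 (fun x => sq3 (w t x - u t x)) := by
    intro i x
    simp only
    rw [hw.periodic_u t ht i x, hup t i x]
  have hz := eq_zero_of_integral_eq_zero hper ((sq3_contDiff (n := 1)).comp hW).continuous
    (fun x => sq3_nonneg _) (hEz t ht)
  ext1 x
  exact sub_eq_zero.1 (sq3_eq_zero (hz x))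

end energy

end Pool.Agent.R739.ET
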