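import Pool.Agent.R739.ET.Close
import Pool.Agent.R739.ET.Uniq

/-!
# The superposition of the pressureless flow and of the swirling flow
-/

open MeasureTheory Set
open scoped ENNReal NNReal Topology Pointwise ContDiff

set_option autoImplicit false

namespace Pool.Agent.R739.ET

open Pool.Agent.H708R2.EulerSign Pool.Agent.H708R2.EulerModes

/-- steady pressureless fields which leave a tube free -/
structure Free (v : V → V) (δ : ℝ) (c : V) (N : ℕ) : Prop where
  smooth : ContDiff ℝ ∞ v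
  per : Periodic3 v
  div : ∀ x, divergence v x = 0
  steady : ∀ x, fderiv ℝ v x (v x) = 0
  tube : ∀ x, rad (wv c ((N : ℝ) • x)) < δ → v x = 0
  hel : ∀ x, ∑ i, v x i * curl v x i = 0

/-- the superposition -/
noncomputable def uu (v : V → V) (d α β γ : ℝ) (c : V) (N : ℕ) (t : ℝ) (x : V) : V :=
  v x + wN d α β γ c N t x

section

variable {v : V → V} {δ : ℝ} {c : V} {N : ℕ} (hv : Free v δ c N) (hδ0 : 0 < δ) (hδ : δ ≤ 1)
  (α β γ : ℝ)

set_option linter.unusedSectionVars false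

include hv hδ0 hδ

lemma cross (t : ℝ) (x : V) : (v x = 0 ∧ fderiv ℝ v x = 0) ∨
    (wN (δ / 2) α β γ c N t x = 0 ∧ fderiv ℝ (wN (δ / 2) α β γ c N t) x = 0 ∧
      (∀ s, wN (δ / 2) α β γ c N s x = 0)) := by
  rcases tube_cases c N hδ0 hδ x with h | h
  · left
    have h1 : v =ᶠ[𝓝 x] fun _ => 0 := by
      filter_upwards [h] with y hy
      exact hv.tube y hy
    refine ⟨h1.self_of_nhds, ?_⟩
    rw [h1.fderiv_eq]
    simp
  · right
    have h1 : wN (δ / 2) α β γ c N t =ᶠ[𝓝 x] fun _ => 0 := by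
      filter_upwards [h] with y hy
      exact wN_zero _ _ _ _ _ hy
    refine ⟨h1.self_of_nhds, ?_, fun s => wN_zero _ _ _ _ _ h.self_of_nhds⟩
    rw [h1.fderiv_eq]
    simp

lemma wN_slice (t : ℝ) : ContDiff ℝ ∞ (wN (δ / 2) α β γ c N t) := by
  have h : ContDiff ℝ ∞ (fun x : V => ((t, x) : ℝ × V)) := contDiff_const.prodMk contDiff_id
  have h2 := (wN_joint (by linarith : δ / 2 ≤ 1) α β γ c N).comp h
  exact h2

lemma uu_fderiv (t : ℝ) (x : V) : fderiv ℝ (uu v (δ / 2) α β γ c N t) x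
    = fderiv ℝ v x + fderiv ℝ (wN (δ / 2) α β γ c N t) x := by
  have h1 : DifferentiableAt ℝ v x := hv.smooth.differentiable (by simp) x
  have h2 : DifferentiableAt ℝ (wN (δ / 2) α β γ c N t) x :=
    (wN_slice hv hδ0 hδ α β γ t).differentiable (by simp) x
  exact (h1.hasFDerivAt.add h2.hasFDerivAt).fderiv

lemma uu_grad (t : ℝ) (x : V) (a b : Fin 3) : grad (uu v (δ / 2) α β γ c N t) x a b
    = grad v x a b + grad (wN (δ / 2) α β γ c N t) x a b := by
  show fderiv ℝ (uu v (δ / 2) α β γ c N t) x (Pi.single b 1) a = _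
  rw [uu_fderiv hv hδ0 hδ]
  rfl

lemma uu_curl (t : ℝ) (x : V) : curl (uu v (δ / 2) α β γ c N t) x
    = curl v x + curl (wN (δ / 2) α β γ c N t) x := by
  unfold curl
  simp only [uu_grad hv hδ0 hδ]
  ext i
  fin_cases i <;> simp <;> ring

omit hv hδ0 hδ in
lemma curl_zero_of {f : V → V} {x : V} (h : fderiv ℝ f x = 0) : curl f x = 0 := by
  have hg : ∀ a b, grad f x a b = 0 := by
    intro a b
    show fderiv ℝ f x (Pi.single b 1) a = 0
    rw [h]; rfl
  unfold curl
  simp only [hg]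
  ext i
  fin_cases i <;> simp

lemma uu_joint : ContDiff ℝ ∞ (fun z : ℝ × V => uu v (δ / 2) α β γ c N z.1 z.2) :=
  (hv.smooth.comp contDiff_snd).add (wN_joint (by linarith : δ / 2 ≤ 1) α β γ c N)

omit hδ0 hδ in
lemma uu_periodic (t : ℝ) : Periodic3 (uu v (δ / 2) α β γ c N t) := by
  intro i x
  unfold uu
  rw [hv.per i x, wN_periodic (d := δ / 2) α β γ c N t i x]

lemma uu_div (t : ℝ) (x : V) : divergence (uu v (δ / 2) α β γ c N t) x = 0 := by
  have h1 := hv.div x
  have h2 := wN_div (by linarith : δ / 2 ≤ 1) α β γ c N t x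
  rw [divergence_eq_sum] at h1 h2 ⊢
  rw [uu_fderiv hv hδ0 hδ]
  simp only [add_apply, Pi.add_apply, Finset.sum_add_distrib]
  rw [h1, h2, add_zero]

lemma uu_momentum (t : ℝ) (x : V) (i : Fin 3) :
    deriv (fun s => uu v (δ / 2) α β γ c N s x i) t
      + fderiv ℝ (uu v (δ / 2) α β γ c N t) x (uu v (δ / 2) α β γ c N t x) i
      = - fderiv ℝ (pN (δ / 2) α c N) x (Pi.single i 1) := by
  have hw := wN_momentum (by linarith : δ / 2 ≤ 1) α β γ c N t x i
  have hst : fderiv ℝ v x (v x) i = 0 := by rw [hv.steady x]; rfl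
  have hdt : deriv (fun s => uu v (δ / 2) α β γ c N s x i) t
      = deriv (fun s => wN (δ / 2) α β γ c N s x i) t := by
    have : (fun s => uu v (δ / 2) α β γ c N s x i)
        = fun s => v x i + wN (δ / 2) α β γ c N s x i := rfl
    rw [this, deriv_const_add]
  rw [uu_fderiv hv hδ0 hδ, hdt, ← hw]
  have hexp : (fderiv ℝ v x + fderiv ℝ (wN (δ / 2) α β γ c N t) x)
      (uu v (δ / 2) α β γ c N t x) i
      = fderiv ℝ v x (v x) i + fderiv ℝ v x (wN (δ / 2) α β γ c N t x) i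
        + fderiv ℝ (wN (δ / 2) α β γ c N t) x (v x) i
        + fderiv ℝ (wN (δ / 2) α β γ c N t) x (wN (δ / 2) α β γ c N t x) i := by
    unfold uu
    simp only [add_apply, map_add, Pi.add_apply]
    ring
  rw [hexp, hst]
  rcases cross hv hδ0 hδ α β γ t x with ⟨h1, h2⟩ | ⟨h1, h2, -⟩
  · rw [h1, h2]; simp
  · rw [h1, h2]; simp

lemma uu_classical : IsClassicalSolution univ (uu v (δ / 2) α β γ c N)
    (fun _ => pN (δ / 2) α c N) := by
  refine ⟨?_, ?_, fun t _ => uu_periodic hv α β γ t, fun t _ => pN_periodic α c N,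
    fun t _ => uu_div hv hδ0 hδ α β γ t, fun t _ x i => ?_⟩
  · exact ((uu_joint hv hδ0 hδ α β γ).of_le (by exact_mod_cast le_top)).contDiffOn
  · exact (((pN_smooth (by linarith : δ / 2 ≤ 1) α c N).comp contDiff_snd).of_le
      (by exact_mod_cast le_top)).contDiffOn
  · rw [derivWithin_univ, sum_mul_clm]
    exact uu_momentum hv hδ0 hδ α β γ t x i

lemma uu_unique {T : ℝ} {w : ℝ → V → V} {q : ℝ → V → ℝ}
    (hw : IsClassicalSolution (Ico 0 T) w q) {t₀ : ℝ} (ht₀ : t₀ ∈ Ico 0 T)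
    (h0 : w t₀ = uu v (δ / 2) α β γ c N t₀) :
    ∀ t ∈ Ico 0 T, w t = uu v (δ / 2) α β γ c N t := by
  have hj := uu_joint hv hδ0 hδ α β γ
  have hg : ∀ (t : ℝ) (x : V), fderiv ℝ (uu v (δ / 2) α β γ c N t) x
      = (fderiv ℝ (fun z : ℝ × V => uu v (δ / 2) α β γ c N z.1 z.2) (t, x)).comp
        (ContinuousLinearMap.inr ℝ ℝ V) := by
    intro t x
    have h1 := (hj.differentiable (by simp) (t, x)).hasFDerivAt
    have h2 : HasFDerivAt (fun y : V => ((t, y) : ℝ × V)) (ContinuousLinearMap.inr ℝ ℝ V) x := by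
      have := (hasFDerivAt_const t x).prodMk (hasFDerivAt_id (𝕜 := ℝ) x)
      exact this
    exact (h1.comp x h2).fderiv
  have hcont : Continuous (fun z : ℝ × V =>
      ‖(fderiv ℝ (fun z : ℝ × V => uu v (δ / 2) α β γ c N z.1 z.2) z).comp
        (ContinuousLinearMap.inr ℝ ℝ V)‖) :=
    ((hj.continuous_fderiv (by simp)).clm_comp continuous_const).norm
  have hK : IsCompact (Icc 0 T ×ˢ closure Dom) := isCompact_Icc.prod dom_bdd.isCompact_closure
  obtain ⟨C, hC⟩ := hK.exists_bound_of_continuousOn hcont.continuousOn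
  have hbd : ∀ t ∈ Icc 0 T, ∀ x, ‖fderiv ℝ (uu v (δ / 2) α β γ c N t) x‖ ≤ C := by
    intro t ht x
    obtain ⟨g, hg1, -⟩ := dom_exists_unique x
    have hp := (uu_periodic (δ := δ) hv α β γ t).fderiv
    have h1 : fderiv ℝ (uu v (δ / 2) α β γ c N t) x
        = fderiv ℝ (uu v (δ / 2) α β γ c N t) (g +ᵥ x : V) := (lat_invariant hp g x).symm
    rw [h1, hg]
    have := hC (t, (g +ᵥ x : V)) ⟨ht, subset_closure hg1⟩
    rwa [norm_norm] at this
  have hK' : ∀ t ∈ Ico 0 T, ∀ x i j, |grad (uu v (δ / 2) α β γ c N t) x i j| ≤ C := by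
    intro t ht x i j
    have h1 := norm_le_pi_norm (fderiv ℝ (uu v (δ / 2) α β γ c N t) x (Pi.single j 1)) i
    have h2 := (fderiv ℝ (uu v (δ / 2) α β γ c N t) x).le_opNorm (Pi.single j 1)
    have h3 : ‖(Pi.single j (1 : ℝ) : V)‖ ≤ 1 := by
      rw [pi_norm_le_iff_of_nonneg zero_le_one]
      intro k
      by_cases hk : k = j
      · subst hk; simp
      · simp [hk]
    have h4 := hbd t ⟨ht.1, ht.2.le⟩ x
    have h5 : ‖fderiv ℝ (uu v (δ / 2) α β γ c N t) x‖ * ‖(Pi.single j (1 : ℝ) : V)‖ ≤ C * 1 :=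
      mul_le_mul h4 h3 (norm_nonneg _) ((norm_nonneg _).trans h4)
    rw [mul_one] at h5
    exact (h1.trans h2).trans h5
  exact unique' hw (hj.of_le (by exact_mod_cast le_top)) (fun t => uu_periodic hv α β γ t)
    (fun t x => uu_div hv hδ0 hδ α β γ t x) (p := fun _ => pN (δ / 2) α c N)
    (fun _ => (pN_smooth (by linarith : δ / 2 ≤ 1) α c N).of_le (by exact_mod_cast le_top))
    (fun _ => pN_periodic α c N)
    (fun t x i => by rw [sum_mul_clm]; exact uu_momentum hv hδ0 hδ α β γ t x i) hK' ht₀ h0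

lemma uu_energy (hN : 0 < N) : ∫ x in Dom, ∑ i, uu v (δ / 2) α β γ c N 0 x i ^ 2
    = (∫ x in Dom, ∑ i, v x i ^ 2)
      + (α ^ 2 * e1 (δ / 2) c + β ^ 2 * e2 (δ / 2) c + γ ^ 2 * e3 (δ / 2) c) := by
  rw [← wN_energy (by linarith : δ / 2 ≤ 1) α β γ c N hN, ← integral_add]
  · congr 1
    ext x
    rw [← Finset.sum_add_distrib]
    refine Finset.sum_congr rfl fun i _ => ?_
    unfold uu
    rcases cross hv hδ0 hδ α β γ 0 x with ⟨h1, -⟩ | ⟨h1, -⟩
    · rw [h1]; simp
    · rw [h1]; simp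
  · refine Periodic3.integrableOn ?_ ?_
    · intro i x; simp only [hv.per i x]
    · exact continuous_finsetSum _ fun i _ => ((continuous_apply i).comp hv.smooth.continuous).pow 2
  · refine Periodic3.integrableOn ?_ ?_
    · intro i x; simp only [wN_periodic (d := δ / 2) α β γ c N 0 i x]
    · exact continuous_finsetSum _ fun i _ =>
        ((continuous_apply i).comp (wN_slice hv hδ0 hδ α β γ 0).continuous).pow 2

lemma uu_helicity (hN : 0 < N) :
    ∫ x in Dom, ∑ i, uu v (δ / 2) α β γ c N 0 x i * curl (uu v (δ / 2) α β γ c N 0) x i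
    = N * (2 * α * β * e2 (δ / 2) c) := by
  rw [← wN_helicity (by linarith : δ / 2 ≤ 1) α β γ c N hN]
  congr 1
  ext x
  rw [uu_curl hv hδ0 hδ]
  have h3 := hv.hel x
  unfold uu
  simp only [Pi.add_apply]
  rcases cross hv hδ0 hδ α β γ 0 x with ⟨h1, h2⟩ | ⟨h1, h2, -⟩
  · rw [h1, curl_zero_of h2]; simp
  · rw [h1, curl_zero_of h2]; simpa using h3

end

end Pool.Agent.R739.ET
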