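import Pool.Agent.R739.ET.Prof
import Pool.Agent.H708R2.EulerSign.Uniq

/-!
# The swirling flow with a transported axial velocity
-/

open MeasureTheory Set
open scoped ENNReal NNReal Topology Pointwise ContDiff

set_option autoImplicit false

namespace Pool.Agent.R739.ET

open Pool.Agent.H708R2.EulerSign Pool.Agent.H708R2.EulerModes

/-- the axial velocity which is transported by the swirl -/
noncomputable def gx (d α t : ℝ) (y : V) : ℝ :=
  pA d (rad y) * (y 0 * Real.cos (α * t * pA d (rad y)) - y 1 * Real.sin (α * t * pA d (rad y)))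

/-- the flow -/
noncomputable def U (d α β γ t : ℝ) (y : V) : V :=
  ![α * (pA d (rad y) * y 1), -(α * (pA d (rad y) * y 0)), β * pF d (rad y) + γ * gx d α t y]

@[simp] lemma U_0 (d α β γ t : ℝ) (y : V) : U d α β γ t y 0 = α * (pA d (rad y) * y 1) := rfl
@[simp] lemma U_1 (d α β γ t : ℝ) (y : V) : U d α β γ t y 1 = -(α * (pA d (rad y) * y 0)) := rfl
@[simp] lemma U_2 (d α β γ t : ℝ) (y : V) :
    U d α β γ t y 2 = β * pF d (rad y) + γ * gx d α t y := rfl

lemma U_ht (d α β γ t : ℝ) : HT d (U d α β γ t) := by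
  refine ⟨fun y z h0 h1 => ?_, fun y hy => ?_⟩
  · have : rad y = rad z := by unfold rad; rw [h0, h1]
    unfold U gx
    rw [this, h0, h1]
  · unfold U gx
    rw [(pA_rp d).van _ hy, (pF_rp d).van _ hy]
    ext i
    fin_cases i <;> simp

/-- the pressure -/
noncomputable def Pr (d α : ℝ) (y : V) : ℝ :=
  α ^ 2 * (1 / 2 * prim d (fun R => pA d R * pA d R) (rad y))

lemma AA_rp (d : ℝ) : RP d (fun R => pA d R * pA d R) := (pA_rp d).mul (pA_rp d).smooth

lemma Pr_ht (d α : ℝ) : HT d (Pr d α) := by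
  refine ⟨fun y z h0 h1 => ?_, fun y hy => ?_⟩
  · have : rad y = rad z := by unfold rad; rw [h0, h1]
    unfold Pr
    rw [this]
  · unfold Pr
    rw [(AA_rp d).prim.van _ hy]
    ring

lemma Pr_smooth (d α : ℝ) : ContDiff ℝ ∞ (Pr d α) :=
  contDiff_const.mul (contDiff_const.mul ((AA_rp d).prim.smooth.comp rad_contDiff))

lemma U_joint (d α β γ : ℝ) : ContDiff ℝ ∞ (fun z : ℝ × V => U d α β γ z.1 z.2) := by
  have hr : ContDiff ℝ ∞ (fun z : ℝ × V => rad z.2) := rad_contDiff.comp contDiff_snd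
  have hA : ContDiff ℝ ∞ (fun z : ℝ × V => pA d (rad z.2)) := (pA_rp d).smooth.comp hr
  have hF : ContDiff ℝ ∞ (fun z : ℝ × V => pF d (rad z.2)) := (pF_rp d).smooth.comp hr
  have hx : ∀ i : Fin 3, ContDiff ℝ ∞ (fun z : ℝ × V => z.2 i) := fun i =>
    (contDiff_apply ℝ ℝ i).comp contDiff_snd
  have hth : ContDiff ℝ ∞ (fun z : ℝ × V => α * z.1 * pA d (rad z.2)) :=
    (contDiff_const.mul contDiff_fst).mul hA
  rw [contDiff_pi]
  intro i
  fin_cases i
  · exact contDiff_const.mul (hA.mul (hx 1))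
  · exact (contDiff_const.mul (hA.mul (hx 0))).neg
  · exact (contDiff_const.mul hF).add (contDiff_const.mul (hA.mul
      (((hx 0).mul (Real.contDiff_cos.comp hth)).sub ((hx 1).mul (Real.contDiff_sin.comp hth)))))

section deriv

variable (d α β γ t : ℝ) (y : V)

/-- `∂₀`-coefficients of the components -/
noncomputable def ca : Fin 3 → ℝ :=
  ![α * (2 * deriv (pA d) (rad y) * y 0 * y 1),
    -(α * (2 * deriv (pA d) (rad y) * y 0 * y 0 + pA d (rad y))),
    β * (deriv (pF d) (rad y) * (2 * y 0)) + γ * (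
      2 * deriv (pA d) (rad y) * y 0 * (y 0 * Real.cos (α * t * pA d (rad y))
        - y 1 * Real.sin (α * t * pA d (rad y)))
      + pA d (rad y) * (Real.cos (α * t * pA d (rad y))
        - (y 0 * Real.sin (α * t * pA d (rad y)) + y 1 * Real.cos (α * t * pA d (rad y)))
          * (α * t * (deriv (pA d) (rad y) * (2 * y 0)))))]

/-- `∂₁`-coefficients of the components -/
noncomputable def cb : Fin 3 → ℝ :=
  ![α * (2 * deriv (pA d) (rad y) * y 1 * y 1 + pA d (rad y)),
    -(α * (2 * deriv (pA d) (rad y) * y 0 * y 1)),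
    β * (deriv (pF d) (rad y) * (2 * y 1)) + γ * (
      2 * deriv (pA d) (rad y) * y 1 * (y 0 * Real.cos (α * t * pA d (rad y))
        - y 1 * Real.sin (α * t * pA d (rad y)))
      + pA d (rad y) * (-Real.sin (α * t * pA d (rad y))
        - (y 0 * Real.sin (α * t * pA d (rad y)) + y 1 * Real.cos (α * t * pA d (rad y)))
          * (α * t * (deriv (pA d) (rad y) * (2 * y 1)))))]

lemma U_hd (i : Fin 3) : HD (fun z => U d α β γ t z i) (ca d α β γ t y i) (cb d α β γ t y i) y := by
  have hA : HD (fun z => pA d (rad z)) (deriv (pA d) (rad y) * (2 * y 0))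
      (deriv (pA d) (rad y) * (2 * y 1)) y := HD.comp ((pA_rp d).hasDerivAt _) (HD.rad y)
  have hF : HD (fun z => pF d (rad z)) (deriv (pF d) (rad y) * (2 * y 0))
      (deriv (pF d) (rad y) * (2 * y 1)) y := HD.comp ((pF_rp d).hasDerivAt _) (HD.rad y)
  have hth := hA.const_mul (α * t)
  have hc := HD.comp (φ := Real.cos) (Real.hasDerivAt_cos (α * t * pA d (rad y))) hth
  have hs := HD.comp (φ := Real.sin) (Real.hasDerivAt_sin (α * t * pA d (rad y))) hth
  fin_cases i
  · refine ((hA.mul (HD.x1 y)).const_mul α).congr ?_ ?_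
    · simp only [ca, Fin.zero_eta, Matrix.cons_val_zero]; ring
    · simp only [cb, Fin.zero_eta, Matrix.cons_val_zero]; ring
  · refine ((hA.mul (HD.x0 y)).const_mul α).neg.congr ?_ ?_
    · simp only [ca, Fin.mk_one, Matrix.cons_val_one, Matrix.cons_val_zero]; ring
    · simp only [cb, Fin.mk_one, Matrix.cons_val_one, Matrix.cons_val_zero]; ring
  · refine ((hF.const_mul β).add ((hA.mul (((HD.x0 y).mul hc).sub ((HD.x1 y).mul hs))).const_mul
      γ)).congr ?_ ?_
    · simp only [ca, Fin.reduceFinMk, Matrix.cons_val]; ring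
    · simp only [cb, Fin.reduceFinMk, Matrix.cons_val]; ring

lemma U_fderiv (e : V) (i : Fin 3) :
    fderiv ℝ (U d α β γ t) y e i = ca d α β γ t y i * e 0 + cb d α β γ t y i * e 1 :=
  fderiv_vec (fun i => U_hd d α β γ t y i) e i

lemma U_div : divergence (U d α β γ t) y = 0 := by
  rw [divergence_eq_sum, Fin.sum_univ_three, U_fderiv, U_fderiv, U_fderiv]
  simp [ca, cb]

lemma U_time (i : Fin 3) : HasDerivAt (fun s => U d α β γ s y i)
    (![0, 0, -(γ * (pA d (rad y) * (α * pA d (rad y)) *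
      (y 0 * Real.sin (α * t * pA d (rad y)) + y 1 * Real.cos (α * t * pA d (rad y)))))] i) t := by
  have hth : HasDerivAt (fun s : ℝ => α * s * pA d (rad y)) (α * pA d (rad y)) t := by
    have := ((hasDerivAt_id t).const_mul α).mul_const (pA d (rad y))
    simpa using this
  fin_cases i
  · exact hasDerivAt_const _ _
  · exact hasDerivAt_const _ _
  · have h := (((hth.cos.const_mul (y 0)).sub (hth.sin.const_mul (y 1))).const_mul
      (pA d (rad y))).const_mul γ
    have h2 := h.const_add (β * pF d (rad y))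
    refine h2.congr_deriv ?_
    simp
    ring

lemma Pr_fderiv (j : Fin 3) : fderiv ℝ (Pr d α) y (Pi.single j 1)
    = ![α ^ 2 * (pA d (rad y) * pA d (rad y)) * y 0,
        α ^ 2 * (pA d (rad y) * pA d (rad y)) * y 1, 0] j := by
  have h : HD (Pr d α) (α ^ 2 * (pA d (rad y) * pA d (rad y)) * y 0)
      (α ^ 2 * (pA d (rad y) * pA d (rad y)) * y 1) y := by
    refine (((HD.comp (prim_hasDerivAt (AA_rp d) (rad y)) (HD.rad y)).const_mul
      (1 / 2)).const_mul (α ^ 2)).congr ?_ ?_ <;> ring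
  rw [h.fderiv]
  fin_cases j <;> simp

lemma U_momentum (i : Fin 3) :
    deriv (fun s => U d α β γ s y i) t + fderiv ℝ (U d α β γ t) y (U d α β γ t y) i
      = - fderiv ℝ (Pr d α) y (Pi.single i 1) := by
  rw [(U_time d α β γ t y i).deriv, U_fderiv, Pr_fderiv]
  fin_cases i
  · simp [ca, cb]; ring
  · simp [ca, cb]; ring
  · simp [ca, cb]; ring

end deriv

end Pool.Agent.R739.ET
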