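import Pool.Agent.R739.ET.Comb

/-!
# Prescribed modes, energy and helicity
-/

open MeasureTheory Set
open scoped ENNReal NNReal Topology Pointwise ContDiff

set_option autoImplicit false

namespace Pool.Agent.R739.ET

open Pool.Agent.H708R2.EulerSign Pool.Agent.H708R2.EulerModes

/-- The energy `∫ |v|²` over `𝕋³`. -/
noncomputable def energy (v : V → V) : ℝ := ∫ x in cube, ∑ i, v x i ^ 2

/-- The helicity `∫ v · curl v` over `𝕋³`. -/
noncomputable def helicity (v : V → V) : ℝ := ∫ x in cube, ∑ i, v x i * curl v x i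

lemma params {a b E M H : ℝ} (ha : 0 < a) (hb : 0 < b) (hE : 0 < E) (hM : 0 < M)
    (h : a * H ^ 2 ≤ E ^ 2 * b * M ^ 2) :
    ∃ α β : ℝ, 0 < α ∧ E / (2 * a) ≤ α ^ 2 ∧ α ^ 2 * a + β ^ 2 * b = E ∧
      M * (2 * α * β * b) = H := by
  set κ : ℝ := H ^ 2 / (4 * b * M ^ 2) with hκ
  have hκ0 : 0 ≤ κ := by positivity
  have hD : 0 ≤ E ^ 2 - 4 * a * κ := by
    have : 4 * a * κ = a * H ^ 2 / (b * M ^ 2) := by rw [hκ]; field_simp
    rw [this, sub_nonneg, div_le_iff₀ (by positivity)]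
    linarith
  set q : ℝ := Real.sqrt (E ^ 2 - 4 * a * κ) with hq
  have hq0 : 0 ≤ q := Real.sqrt_nonneg _
  have hq2 : q ^ 2 = E ^ 2 - 4 * a * κ := Real.sq_sqrt hD
  set s : ℝ := (E + q) / (2 * a) with hs
  have hs0 : 0 < s := by positivity
  have hquad : a * s ^ 2 + κ = E * s := by
    have e : 2 * a * s = E + q := by rw [hs]; field_simp
    have : 4 * a * (a * s ^ 2 + κ) = 4 * a * (E * s) := by
      have h1 : 4 * a * (a * s ^ 2 + κ) = (2 * a * s) ^ 2 + 4 * a * κ := by ring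
      have h2 : 4 * a * (E * s) = 2 * E * (2 * a * s) := by ring
      rw [h1, h2, e]
      nlinarith
    exact mul_left_cancel₀ (by positivity : (4 * a) ≠ 0) this
  have hα : Real.sqrt s ^ 2 = s := Real.sq_sqrt hs0.le
  have hα0 : 0 < Real.sqrt s := Real.sqrt_pos.2 hs0
  refine ⟨Real.sqrt s, H / (2 * Real.sqrt s * b * M), hα0, ?_, ?_, ?_⟩
  · rw [hα, hs]
    gcongr
    linarith
  · have e : (H / (2 * Real.sqrt s * b * M)) ^ 2 * b = κ / s := by
      rw [div_pow, mul_pow, mul_pow, mul_pow, hα, hκ]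
      field_simp
      ring
    rw [e, hα]
    field_simp
    nlinarith
  · field_simp

theorem core (u₀ : V → V) (hper : Periodic3 u₀) (hL2 : MemLp u₀ 2 (volume.restrict cube))
    (hdiv : WeakDivFree u₀) (K : ℕ) (s ε : ℝ) (hs : 0 < s) (hε : 0 < ε) :
    ∃ (E₀ : ℝ) (c : V) (δ : ℝ), 0 < δ ∧ δ ≤ 1 ∧ ∀ E : ℝ, E₀ ≤ E → ∃ N₀ : ℕ, ∀ N : ℕ, N₀ ≤ N →
      0 < N ∧ ∃ v : V → V, Free v δ c N ∧ ∃ Ev : ℝ, Ev ≤ E - 1 ∧ 0 ≤ Ev ∧ ∀ α β γ : ℝ,
        α ^ 2 * e1 (δ / 2) c + β ^ 2 * e2 (δ / 2) c + γ ^ 2 * e3 (δ / 2) c = E - Ev →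
        SameModes K (uu v (δ / 2) α β γ c N 0) u₀ ∧
        HNegClose s ε (uu v (δ / 2) α β γ c N 0) u₀ ∧
        energy (uu v (δ / 2) α β γ c N 0) = E ∧
        helicity (uu v (δ / 2) α β γ c N 0) = N * (2 * α * β * e2 (δ / 2) c) := by
  classical
  have hu2 := memLp_dom hper hL2
  set vol : ℝ := (volume Dom).toReal with hvol
  have hvol0 : 0 < vol := vol_pos
  set Eu : ℝ := ∑ i, vol * ∫ x in Dom, (u₀ x i) ^ 2 with hEu
  obtain ⟨K₁, hK₁⟩ := exists_pow_le s hs (2 * Eu) (ε ^ 2 / 2) (by positivity)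
  set K' := max K K₁ with hK'
  let A : (Fin 3 → ℤ) → V := fun l i => ∫ x in Dom, u₀ x i * Real.cos (ph l x)
  let B : (Fin 3 → ℤ) → V := fun l i => ∫ x in Dom, u₀ x i * Real.sin (ph l x)
  have hA : ∀ k ∈ Bx K', ph k (A k) = 0 := fun k _ => (ph_coeff hper hL2 hdiv k).1
  have hB : ∀ k ∈ Bx K', ph k (B k) = 0 := fun k _ => (ph_coeff hper hL2 hdiv k).2
  have hAs : ∀ k ∈ Bx K', A (-k) = A k := by
    intro k _
    ext i
    simp only [A, ph_neg, Real.cos_neg]
  have hBs : ∀ k ∈ Bx K', B (-k) = -B k := by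
    intro k _
    ext i
    simp only [B, ph_neg, Real.sin_neg, mul_neg, Pi.neg_apply]
    rw [integral_neg]
  obtain ⟨C, hC0, c, δ, hδ0, hδ, hC⟩ := exists_steady_tube K' A B hA hB hAs hBs
  refine ⟨3 * C ^ 2 * vol + 1, c, δ, hδ0, hδ, fun E hE => ?_⟩
  have hE0 : 0 ≤ E := by
    have : 0 ≤ 3 * C ^ 2 * vol := by positivity
    linarith
  obtain ⟨N₁, hN₁⟩ := exists_pow_le s hs (2 * (3 * (vol * E))) (ε ^ 2 / 2) (by positivity)
  refine ⟨2 * K' + 1 + N₁, fun N hN => ?_⟩
  have hN0 : 0 < N := by omega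
  obtain ⟨v, hvs, hvp, hvdiv, hvst, hvb, hvt, hvh, hvm, hvz⟩ := hC N (by omega)
  have hF : Free v δ c N := ⟨hvs, hvp, hvdiv, hvst, hvt, hvh⟩
  have hvE : ∫ x in Dom, ∑ i, v x i ^ 2 ≤ 3 * C ^ 2 * vol := by
    have h1 : ‖∫ x in Dom, ∑ i, v x i ^ 2‖ ≤ 3 * C ^ 2 * (volume.real Dom) := by
      refine norm_setIntegral_le_of_norm_le_const dom_lt_top fun x _ => ?_
      rw [Real.norm_of_nonneg (Finset.sum_nonneg fun i _ => sq_nonneg _)]
      calc ∑ i, v x i ^ 2 ≤ ∑ _i : Fin 3, C ^ 2 := by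
            refine Finset.sum_le_sum fun i _ => ?_
            rw [← sq_abs]
            have := (norm_le_pi_norm (v x) i).trans (hvb x)
            rw [Real.norm_eq_abs] at this
            gcongr
        _ = 3 * C ^ 2 := by simp
    exact (le_abs_self _).trans h1
  refine ⟨hN0, v, hF, ∫ x in Dom, ∑ i, v x i ^ 2, by linarith,
    integral_nonneg fun x => Finset.sum_nonneg fun i _ => sq_nonneg _, fun α β γ hαβγ => ?_⟩
  have hper' := uu_periodic hF α β γ 0
  have hslice : ContDiff ℝ ∞ (uu v (δ / 2) α β γ c N 0) :=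
    hvs.add (wN_slice hF hδ0 hδ α β γ 0)
  have hcont := hslice.continuous
  have hEn := uu_energy hF hδ0 hδ α β γ hN0
  rw [hαβγ] at hEn
  have hEn' : ∫ x in Dom, ∑ i, uu v (δ / 2) α β γ c N 0 x i ^ 2 = E := by rw [hEn]; ring
  have hii : ∀ i, IntegrableOn (fun x => uu v (δ / 2) α β γ c N 0 x i ^ 2) Dom := by
    intro i
    refine Periodic3.integrableOn ?_ (((continuous_apply i).comp hcont).pow 2)
    intro j x; simp only [hper' j x]
  have hb : ∀ i, ∫ x in Dom, uu v (δ / 2) α β γ c N 0 x i ^ 2 ≤ E := by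
    intro i
    rw [← hEn', integral_finsetSum _ fun i _ => hii i]
    exact Finset.single_le_sum (f := fun i => ∫ x in Dom, uu v (δ / 2) α β γ c N 0 x i ^ 2)
      (fun j _ => integral_nonneg fun x => sq_nonneg _) (Finset.mem_univ i)
  -- the modes
  have hwm := fun l hl => wN_modes (by linarith : δ / 2 ≤ 1) α β γ c N hN0 l hl
  have hvi : ∀ (i : Fin 3) (g : V → ℝ), Continuous g → Periodic3 g →
      IntegrableOn (fun x => v x i * g x) Dom := by
    intro i g hg hgp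
    refine Periodic3.integrableOn ?_ (((continuous_apply i).comp hvs.continuous).mul hg)
    intro j x; simp only [hvp j x, hgp j x]
  have hwi : ∀ (i : Fin 3) (g : V → ℝ), Continuous g → Periodic3 g →
      IntegrableOn (fun x => wN (δ / 2) α β γ c N 0 x i * g x) Dom := by
    intro i g hg hgp
    refine Periodic3.integrableOn ?_ (((continuous_apply i).comp
      (wN_slice hF hδ0 hδ α β γ 0).continuous).mul hg)
    intro j x
    have := wN_periodic (d := δ / 2) α β γ c N 0 j x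
    simp only [this, hgp j x]
  have hsplit : ∀ (i : Fin 3) (g : V → ℝ), Continuous g → Periodic3 g →
      ∫ x in Dom, uu v (δ / 2) α β γ c N 0 x i * g x
        = (∫ x in Dom, v x i * g x) + ∫ x in Dom, wN (δ / 2) α β γ c N 0 x i * g x := by
    intro i g hg hgp
    rw [← integral_add (hvi i g hg hgp) (hwi i g hg hgp)]
    congr 1
    ext x
    unfold uu
    simp only [Pi.add_apply]
    ring
  have cosc : ∀ k, Continuous (fun x => Real.cos (ph k x)) := fun k =>
    Real.continuous_cos.comp (ph_contDiff k).continuous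
  have sinc : ∀ k, Continuous (fun x => Real.sin (ph k x)) := fun k =>
    Real.continuous_sin.comp (ph_contDiff k).continuous
  have hm1 : ∀ l ∈ Bx K', ∀ i,
      ∫ x in Dom, uu v (δ / 2) α β γ c N 0 x i * Real.cos (ph l x)
        = ∫ x in Dom, u₀ x i * Real.cos (ph l x) ∧
      ∫ x in Dom, uu v (δ / 2) α β γ c N 0 x i * Real.sin (ph l x)
        = ∫ x in Dom, u₀ x i * Real.sin (ph l x) := by
    intro l hl i
    have hl' := mem_Bx.1 hl
    obtain ⟨w1, w2⟩ := hwm l (fun i => by have := hl' i; omega) i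
    obtain ⟨v1, v2⟩ := hvm l hl i
    rw [hsplit i _ (cosc l) (cos_periodic l), hsplit i _ (sinc l) (sin_periodic l), w1, w2, v1, v2,
      add_zero, add_zero]
    exact ⟨rfl, rfl⟩
  have hz1 : ∀ l : Fin 3 → ℤ, l ∉ Bx K' → (∀ i, |l i| + K' < N) → ∀ i,
      ∫ x in Dom, uu v (δ / 2) α β γ c N 0 x i * Real.cos (ph l x) = 0 ∧
      ∫ x in Dom, uu v (δ / 2) α β γ c N 0 x i * Real.sin (ph l x) = 0 := by
    intro l hl hlN i
    obtain ⟨w1, w2⟩ := hwm l (fun i => by have := hlN i; omega) i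
    obtain ⟨v1, v2⟩ := hvz l hl hlN i
    rw [hsplit i _ (cosc l) (cos_periodic l), hsplit i _ (sinc l) (sin_periodic l), w1, w2, v1, v2,
      add_zero]
    exact ⟨rfl, rfl⟩
  refine ⟨?_, ?_, ?_, ?_⟩
  · intro l hl i
    have hl' : l ∈ Bx K' := by
      rw [mem_Bx]
      intro i
      refine (hl i).trans ?_
      exact_mod_cast le_max_left K K₁
    obtain ⟨h1, h2⟩ := hm1 l hl' i
    rw [cosCoeff_eq (comp_periodic hper' i), cosCoeff_eq (comp_periodic hper i),
      sinCoeff_eq (comp_periodic hper' i), sinCoeff_eq (comp_periodic hper i)]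
    exact ⟨h1, h2⟩
  · exact hneg hper hL2 hper' hcont (K' := K') (N := N) (by omega) hs hb hm1 hz1
      (hN₁ (N - K') (by omega)) (hK₁ K' (le_max_right K K₁))
  · unfold energy
    rw [integral_cube (f := fun x => ∑ i, uu v (δ / 2) α β γ c N 0 x i ^ 2)]
    · exact hEn'
    · intro j x; simp only [hper' j x]
  · unfold helicity
    rw [integral_cube (f := fun x => ∑ i, uu v (δ / 2) α β γ c N 0 x i *
      curl (uu v (δ / 2) α β γ c N 0) x i)]
    · exact uu_helicity hF hδ0 hδ α β γ hN0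
    · intro j x
      have hg : ∀ a b, grad (uu v (δ / 2) α β γ c N 0) (x + Pi.single j (2 * Real.pi)) a b
          = grad (uu v (δ / 2) α β γ c N 0) x a b := by
        intro a b
        rw [hper'.grad j x]
      simp only [hper' j x, curl, hg]

end Pool.Agent.R739.ET
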