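import Pool.Agent.R739.ET.Field

/-!
# Integrals of the swirling flow: mean, energy, helicity
-/

open MeasureTheory Set
open scoped ENNReal NNReal Topology Pointwise ContDiff

set_option autoImplicit false

namespace Pool.Agent.R739.ET

open Pool.Agent.H708R2.EulerSign Pool.Agent.H708R2.EulerModes

/-- The vorticity: the curl of `v`. -/
noncomputable def curl (v : V → V) (x : V) : V :=
  ![grad v x 2 1 - grad v x 1 2, grad v x 0 2 - grad v x 2 0, grad v x 1 0 - grad v x 0 1]

lemma int_zero {d : ℝ} (hd : d ≤ 1) {h : V → V} (hh : HT d h) (hs : ContDiff ℝ 1 h) {G : V → ℝ}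
    (hG : HT d G) (e : ∀ y, divergence h y = G y) (c : V) :
    ∫ x in Dom, G (wv c x) = 0 := by
  have h1 := integral_divergence_eq_zero (hh.contDiff hd hs c) (periodic_comp c h)
  rw [← h1]
  congr 1
  ext x
  rw [hG.self, ← e, divergence_eq_sum, divergence_eq_sum, hh.fderiv hd]

lemma div_vec {v : V → V} {y : V} {a b : Fin 3 → ℝ}
    (h : ∀ i, HD (fun z => v z i) (a i) (b i) y) : divergence v y = a 0 + b 1 := by
  rw [divergence_eq_sum, Fin.sum_univ_three, fderiv_vec h, fderiv_vec h, fderiv_vec h]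
  simp

lemma int_y0 {d : ℝ} (hd : d ≤ 1) {k : ℝ → ℝ} (hk : RP d k) (c : V) :
    ∫ x in Dom, k (rad (wv c x)) * wv c x 0 = 0 := by
  refine int_zero hd (h := fun y => ![1 / 2 * prim d k (rad y), 0, 0])
    (G := fun y => k (rad y) * y 0) ⟨?_, ?_⟩ ?_ ⟨?_, ?_⟩ ?_ c
  · intro y z h0 h1
    simp only [rad, h0, h1]
  · intro y hy
    simp only [hk.prim.van _ hy]
    ext i; fin_cases i <;> simp
  · rw [contDiff_pi]
    intro i
    fin_cases i
    · exact (contDiff_const.mul (hk.prim.smooth.comp rad_contDiff)).of_le (by exact_mod_cast le_top)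
    · exact contDiff_const
    · exact contDiff_const
  · intro y z h0 h1
    simp only [rad, h0, h1]
  · intro y hy
    simp only [hk.van _ hy, zero_mul]
  · intro y
    have h0 : HD (fun z => 1 / 2 * prim d k (rad z)) (k (rad y) * y 0) (k (rad y) * y 1) y := by
      refine ((HD.comp (prim_hasDerivAt hk (rad y)) (HD.rad y)).const_mul (1 / 2)).congr ?_ ?_ <;>
      ring
    rw [div_vec (a := ![k (rad y) * y 0, 0, 0]) (b := ![k (rad y) * y 1, 0, 0])]
    · simp
    · intro i
      fin_cases i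
      · exact h0
      · exact HD.const _ _
      · exact HD.const _ _

lemma int_y1 {d : ℝ} (hd : d ≤ 1) {k : ℝ → ℝ} (hk : RP d k) (c : V) :
    ∫ x in Dom, k (rad (wv c x)) * wv c x 1 = 0 := by
  refine int_zero hd (h := fun y => ![0, 1 / 2 * prim d k (rad y), 0])
    (G := fun y => k (rad y) * y 1) ⟨?_, ?_⟩ ?_ ⟨?_, ?_⟩ ?_ c
  · intro y z h0 h1
    simp only [rad, h0, h1]
  · intro y hy
    simp only [hk.prim.van _ hy]
    ext i; fin_cases i <;> simp
  · rw [contDiff_pi]
    intro i
    fin_cases i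
    · exact contDiff_const
    · exact (contDiff_const.mul (hk.prim.smooth.comp rad_contDiff)).of_le (by exact_mod_cast le_top)
    · exact contDiff_const
  · intro y z h0 h1
    simp only [rad, h0, h1]
  · intro y hy
    simp only [hk.van _ hy, zero_mul]
  · intro y
    have h0 : HD (fun z => 1 / 2 * prim d k (rad z)) (k (rad y) * y 0) (k (rad y) * y 1) y := by
      refine ((HD.comp (prim_hasDerivAt hk (rad y)) (HD.rad y)).const_mul (1 / 2)).congr ?_ ?_ <;>
      ring
    rw [div_vec (a := ![0, k (rad y) * y 0, 0]) (b := ![0, k (rad y) * y 1, 0])]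
    · simp
    · intro i
      fin_cases i
      · exact HD.const _ _
      · exact h0
      · exact HD.const _ _

/-- `A y₀ g`, `A y₁ g` -/
lemma int_div_g {d : ℝ} (hd : d ≤ 1) {g a b : V → ℝ} (hgs : ContDiff ℝ 1 g)
    (hg : ∀ y, HD g (a y) (b y) y) (hgi : ∀ y z : V, y 0 = z 0 → y 1 = z 1 → g y = g z)
    (hai : ∀ y z : V, y 0 = z 0 → y 1 = z 1 → a y = a z)
    (hbi : ∀ y z : V, y 0 = z 0 → y 1 = z 1 → b y = b z) (c : V) :
    ∫ x in Dom, (-(pF d (rad (wv c x)) * g (wv c x))
      + pA d (rad (wv c x)) * (wv c x 0 * a (wv c x) + wv c x 1 * b (wv c x))) = 0 := by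
  refine int_zero hd (h := fun y => ![pA d (rad y) * y 0 * g y, pA d (rad y) * y 1 * g y, 0])
    (G := fun y => -(pF d (rad y) * g y) + pA d (rad y) * (y 0 * a y + y 1 * b y))
    ⟨?_, ?_⟩ ?_ ⟨?_, ?_⟩ ?_ c
  · intro y z h0 h1
    have : rad y = rad z := by unfold rad; rw [h0, h1]
    simp only [this, h0, h1, hgi y z h0 h1]
  · intro y hy
    simp only [(pA_rp d).van _ hy]
    ext i; fin_cases i <;> simp
  · rw [contDiff_pi]
    have hA : ContDiff ℝ 1 (fun y : V => pA d (rad y)) :=
      ((pA_rp d).smooth.comp rad_contDiff).of_le (by exact_mod_cast le_top)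
    intro i
    fin_cases i
    · exact (hA.mul (contDiff_apply ℝ ℝ (0 : Fin 3))).mul hgs
    · exact (hA.mul (contDiff_apply ℝ ℝ (1 : Fin 3))).mul hgs
    · exact contDiff_const
  · intro y z h0 h1
    have : rad y = rad z := by unfold rad; rw [h0, h1]
    simp only [this, h0, h1, hgi y z h0 h1, hai y z h0 h1, hbi y z h0 h1]
  · intro y hy
    simp only [(pA_rp d).van _ hy, (pF_rp d).van _ hy]
    ring
  · intro y
    have hA : HD (fun z => pA d (rad z)) (deriv (pA d) (rad y) * (2 * y 0))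
        (deriv (pA d) (rad y) * (2 * y 1)) y := HD.comp ((pA_rp d).hasDerivAt _) (HD.rad y)
    have h0 := (hA.mul (HD.x0 y)).mul (hg y)
    have h1 := (hA.mul (HD.x1 y)).mul (hg y)
    rw [div_vec (a := ![_, _, 0]) (b := ![_, _, 0])
      (h := fun i => by
        fin_cases i
        · exact h0
        · exact h1
        · exact HD.const _ _)]
    simp only [Matrix.cons_val_zero, Matrix.cons_val_one, pF, rad]
    ring

lemma int_F {d : ℝ} (hd : d ≤ 1) (c : V) : ∫ x in Dom, pF d (rad (wv c x)) = 0 := by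
  have h := int_div_g hd (g := fun _ => 1) (a := fun _ => 0) (b := fun _ => 0) contDiff_const
    (fun y => HD.const 1 y) (fun _ _ _ _ => rfl) (fun _ _ _ _ => rfl) (fun _ _ _ _ => rfl) c
  simp only [mul_one, mul_zero, add_zero] at h
  rw [integral_neg, neg_eq_zero] at h
  exact h

lemma cont_comp {d : ℝ} (hd : d ≤ 1) {h : V → ℝ} (hh : HT d h) (hc : ContDiff ℝ 1 h) (c : V) :
    Continuous (fun x => h (wv c x)) := (hh.contDiff hd hc c).continuous

lemma int_comp {d : ℝ} (hd : d ≤ 1) {h : V → ℝ} (hh : HT d h) (hc : ContDiff ℝ 1 h) (c : V) :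
    IntegrableOn (fun x => h (wv c x)) Dom :=
  (periodic_comp c h).integrableOn (cont_comp hd hh hc c)

end Pool.Agent.R739.ET
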