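import Pool.Agent.R739.ET.Int

/-!
# Energy and helicity of the swirling flow
-/

open MeasureTheory Set
open scoped ENNReal NNReal Topology Pointwise ContDiff

set_option autoImplicit false

namespace Pool.Agent.R739.ET

open Pool.Agent.H708R2.EulerSign Pool.Agent.H708R2.EulerModes

/-- a radial function times a polynomial is of the type `HT` -/
lemma ht_k {d : ℝ} {k : ℝ → ℝ} (hk : RP d k) : HT d (fun y => k (rad y)) := hk.ht

lemma ht_k0 {d : ℝ} {k : ℝ → ℝ} (hk : RP d k) : HT d (fun y => k (rad y) * y 0 ^ 2) := by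
  refine ⟨fun y z h0 h1 => ?_, fun y hy => ?_⟩
  · simp only [rad, h0, h1]
  · simp only [hk.van _ hy, zero_mul]

lemma ht_k0' {d : ℝ} {k : ℝ → ℝ} (hk : RP d k) : HT d (fun y => k (rad y) * y 0) := by
  refine ⟨fun y z h0 h1 => ?_, fun y hy => ?_⟩
  · simp only [rad, h0, h1]
  · simp only [hk.van _ hy, zero_mul]

lemma sm_k {d : ℝ} {k : ℝ → ℝ} (hk : RP d k) : ContDiff ℝ 1 (fun y : V => k (rad y)) :=
  (hk.smooth.comp rad_contDiff).of_le (by exact_mod_cast le_top)

lemma sm_k0 {d : ℝ} {k : ℝ → ℝ} (hk : RP d k) : ContDiff ℝ 1 (fun y : V => k (rad y) * y 0 ^ 2) :=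
  (sm_k hk).mul ((contDiff_apply ℝ ℝ (0 : Fin 3)).pow 2)

lemma sm_k0' {d : ℝ} {k : ℝ → ℝ} (hk : RP d k) : ContDiff ℝ 1 (fun y : V => k (rad y) * y 0) :=
  (sm_k hk).mul (contDiff_apply ℝ ℝ (0 : Fin 3))

lemma AAR_rp (d : ℝ) : RP d (fun R => R * (pA d R * pA d R)) := (AA_rp d).mul contDiff_id
lemma FF_rp (d : ℝ) : RP d (fun R => pF d R * pF d R) := (pF_rp d).mul (pF_rp d).smooth
lemma FA_rp (d : ℝ) : RP d (fun R => pF d R * pA d R) := (pA_rp d).mul (pF_rp d).smooth

/-- the three energies -/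
noncomputable def e1 (d : ℝ) (c : V) : ℝ :=
  ∫ x in Dom, rad (wv c x) * (pA d (rad (wv c x)) * pA d (rad (wv c x)))
noncomputable def e2 (d : ℝ) (c : V) : ℝ := ∫ x in Dom, pF d (rad (wv c x)) * pF d (rad (wv c x))
noncomputable def e3 (d : ℝ) (c : V) : ℝ :=
  ∫ x in Dom, pA d (rad (wv c x)) * pA d (rad (wv c x)) * wv c x 0 ^ 2

lemma U0_2 (d α β γ : ℝ) (y : V) :
    U d α β γ 0 y 2 = β * pF d (rad y) + γ * (pA d (rad y) * y 0) := by
  rw [U_2]
  unfold gx
  simp

lemma energy_W {d : ℝ} (hd : d ≤ 1) (α β γ : ℝ) (c : V) :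
    ∫ x in Dom, ∑ i, U d α β γ 0 (wv c x) i ^ 2
      = α ^ 2 * e1 d c + β ^ 2 * e2 d c + γ ^ 2 * e3 d c := by
  have h1 := int_comp hd (ht_k (AAR_rp d)) (sm_k (AAR_rp d)) c
  have h2 := int_comp hd (ht_k (FF_rp d)) (sm_k (FF_rp d)) c
  have h3 := int_comp hd (ht_k0 (AA_rp d)) (sm_k0 (AA_rp d)) c
  have h4 := int_comp hd (ht_k0' (FA_rp d)) (sm_k0' (FA_rp d)) c
  have h5 := int_y0 hd (FA_rp d) c
  have e : ∀ x : V, ∑ i, U d α β γ 0 (wv c x) i ^ 2
      = α ^ 2 * (rad (wv c x) * (pA d (rad (wv c x)) * pA d (rad (wv c x))))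
        + β ^ 2 * (pF d (rad (wv c x)) * pF d (rad (wv c x)))
        + γ ^ 2 * (pA d (rad (wv c x)) * pA d (rad (wv c x)) * wv c x 0 ^ 2)
        + 2 * β * γ * (pF d (rad (wv c x)) * pA d (rad (wv c x)) * wv c x 0) := by
    intro x
    rw [Fin.sum_univ_three, U_0, U_1, U0_2]
    have : rad (wv c x) = wv c x 0 ^ 2 + wv c x 1 ^ 2 := rfl
    generalize pF d (rad (wv c x)) = F
    generalize pA d (rad (wv c x)) = A
    rw [this]
    ring
  simp only [e]
  rw [integral_add, integral_add, integral_add, integral_const_mul, integral_const_mul,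
    integral_const_mul, integral_const_mul, h5]
  · unfold e1 e2 e3; ring
  · exact h1.const_mul _
  · exact h2.const_mul _
  · exact (h1.const_mul _).add (h2.const_mul _)
  · exact h3.const_mul _
  · exact ((h1.const_mul _).add (h2.const_mul _)).add (h3.const_mul _)
  · exact h4.const_mul _

lemma grad_W {d : ℝ} (hd : d ≤ 1) (α β γ t : ℝ) (c x : V) (i j : Fin 3) :
    grad (fun x => U d α β γ t (wv c x)) x i j
      = ![ca d α β γ t (x + tau c x) i, cb d α β γ t (x + tau c x) i, 0] j := by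
  show fderiv ℝ (fun x => U d α β γ t (wv c x)) x (Pi.single j 1) i = _
  rw [(U_ht d α β γ t).fderiv hd]
  exact grad_vec (fun i => U_hd d α β γ t (x + tau c x) i) i j

/-- the vorticity of the swirling flow -/
noncomputable def cu (d α β γ t : ℝ) (y : V) : V :=
  ![cb d α β γ t y 2, -ca d α β γ t y 2, α * pF d (rad y)]

lemma curl_W {d : ℝ} (hd : d ≤ 1) (α β γ t : ℝ) (c x : V) :
    curl (fun x => U d α β γ t (wv c x)) x = cu d α β γ t (x + tau c x) := by
  unfold curl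
  simp only [grad_W hd]
  ext i
  fin_cases i
  · simp [cu]
  · simp [cu]
  · simp only [cu, ca, cb, pF, rad, Fin.reduceFinMk, Matrix.cons_val, Matrix.cons_val_zero,
      Matrix.cons_val_one]
    ring

lemma cacb_congr (d α β γ t : ℝ) {y z : V} (h0 : y 0 = z 0) (h1 : y 1 = z 1) (i : Fin 3) :
    ca d α β γ t y i = ca d α β γ t z i ∧ cb d α β γ t y i = cb d α β γ t z i := by
  have : rad y = rad z := by unfold rad; rw [h0, h1]
  unfold ca cb
  rw [this, h0, h1]
  exact ⟨rfl, rfl⟩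

lemma tau_0 (c x : V) : (x + tau c x) 0 = wv c x 0 := by simp [tau]
lemma tau_1 (c x : V) : (x + tau c x) 1 = wv c x 1 := by simp [tau]

lemma cu_wv (d α β γ t : ℝ) (c x : V) : cu d α β γ t (x + tau c x) = cu d α β γ t (wv c x) := by
  have h := cacb_congr d α β γ t (tau_0 c x) (tau_1 c x) 2
  have : rad (x + tau c x) = rad (wv c x) := by unfold rad; rw [tau_0, tau_1]
  unfold cu
  rw [h.1, h.2, this]

lemma helicity_W {d : ℝ} (hd : d ≤ 1) (α β γ : ℝ) (c : V) :
    ∫ x in Dom, ∑ i, U d α β γ 0 (wv c x) i * cu d α β γ 0 (wv c x) i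
      = 2 * α * β * e2 d c := by
  have h2 := int_comp hd (ht_k (FF_rp d)) (sm_k (FF_rp d)) c
  have h4 := int_comp hd (ht_k0' (FA_rp d)) (sm_k0' (FA_rp d)) c
  have h5 := int_y0 hd (FA_rp d) c
  have hs : ContDiff ℝ 1 (fun y : V => U d α β γ 0 y 2) := by
    have h := (U_joint d α β γ).comp
      (contDiff_prodMk_right (𝕜 := ℝ) (E := ℝ) (F := V) (n := ∞) 0)
    exact ((contDiff_apply ℝ ℝ (2 : Fin 3)).comp h).of_le (by exact_mod_cast le_top)
  have h6 := int_div_g hd (g := fun y => U d α β γ 0 y 2) (a := fun y => ca d α β γ 0 y 2)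
    (b := fun y => cb d α β γ 0 y 2) hs (fun y => U_hd d α β γ 0 y 2)
    (fun y z h0 h1 => by rw [(U_ht d α β γ 0).ind y z h0 h1])
    (fun y z h0 h1 => (cacb_congr d α β γ 0 h0 h1 2).1)
    (fun y z h0 h1 => (cacb_congr d α β γ 0 h0 h1 2).2) c
  have e : ∀ x : V, ∑ i, U d α β γ 0 (wv c x) i * cu d α β γ 0 (wv c x) i
      = α * (-(pF d (rad (wv c x)) * U d α β γ 0 (wv c x) 2)
        + pA d (rad (wv c x)) * (wv c x 0 * ca d α β γ 0 (wv c x) 2
          + wv c x 1 * cb d α β γ 0 (wv c x) 2))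
        + (2 * α * β * (pF d (rad (wv c x)) * pF d (rad (wv c x)))
        + 2 * α * γ * (pF d (rad (wv c x)) * pA d (rad (wv c x)) * wv c x 0)) := by
    intro x
    rw [Fin.sum_univ_three, U0_2, U_0, U_1]
    have c0 : cu d α β γ 0 (wv c x) 0 = cb d α β γ 0 (wv c x) 2 := rfl
    have c1 : cu d α β γ 0 (wv c x) 1 = -ca d α β γ 0 (wv c x) 2 := rfl
    have c2 : cu d α β γ 0 (wv c x) 2 = α * pF d (rad (wv c x)) := rfl
    rw [c0, c1, c2]
    ring
  have i6 : IntegrableOn (fun x => -(pF d (rad (wv c x)) * U d α β γ 0 (wv c x) 2)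
        + pA d (rad (wv c x)) * (wv c x 0 * ca d α β γ 0 (wv c x) 2
          + wv c x 1 * cb d α β γ 0 (wv c x) 2)) Dom := by
    refine int_comp (h := fun y => -(pF d (rad y) * U d α β γ 0 y 2)
        + pA d (rad y) * (y 0 * ca d α β γ 0 y 2 + y 1 * cb d α β γ 0 y 2)) hd ⟨?_, ?_⟩ ?_ c
    · intro y z h0 h1
      have : rad y = rad z := by unfold rad; rw [h0, h1]
      have h7 := cacb_congr d α β γ 0 h0 h1 2
      simp only [this, h0, h1, h7.1, h7.2, (U_ht d α β γ 0).ind y z h0 h1]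
    · intro y hy
      simp only [(pA_rp d).van _ hy, (pF_rp d).van _ hy]
      ring
    · have hA := sm_k (pA_rp d)
      have hF := sm_k (pF_rp d)
      have hA' := sm_k (pA_rp d).deriv
      have hF' := sm_k (pF_rp d).deriv
      have hx : ∀ i : Fin 3, ContDiff ℝ 1 (fun y : V => y i) := fun i => contDiff_apply ℝ ℝ i
      have ha : ContDiff ℝ 1 (fun y : V => ca d α β γ 0 y 2) := by
        have : (fun y : V => ca d α β γ 0 y 2) = fun y => β * (deriv (pF d) (rad y) * (2 * y 0))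
            + γ * (2 * deriv (pA d) (rad y) * y 0 * y 0 + pA d (rad y)) := by
          ext y; simp [ca]
        rw [this]
        exact (contDiff_const.mul (hF'.mul (contDiff_const.mul (hx 0)))).add
          (contDiff_const.mul ((((contDiff_const.mul hA').mul (hx 0)).mul (hx 0)).add hA))
      have hb : ContDiff ℝ 1 (fun y : V => cb d α β γ 0 y 2) := by
        have : (fun y : V => cb d α β γ 0 y 2) = fun y => β * (deriv (pF d) (rad y) * (2 * y 1))
            + γ * (2 * deriv (pA d) (rad y) * y 1 * y 0) := by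
          ext y; simp [cb]
        rw [this]
        exact (contDiff_const.mul (hF'.mul (contDiff_const.mul (hx 1)))).add
          (contDiff_const.mul (((contDiff_const.mul hA').mul (hx 1)).mul (hx 0)))
      exact (hF.mul hs).neg.add (hA.mul (((hx 0).mul ha).add ((hx 1).mul hb)))
  simp only [e]
  rw [integral_add, integral_add, integral_const_mul, integral_const_mul,
    integral_const_mul, h6, h5]
  · unfold e2
    ring
  · exact h2.const_mul _
  · exact h4.const_mul _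
  · exact i6.const_mul _
  · exact (h2.const_mul _).add (h4.const_mul _)

/-- the point `c + √(d/2) e₀` -/
lemma exists_pt {d : ℝ} (hd0 : 0 < d) (hd : d ≤ 1) (c : V) :
    ∃ x : V, rad (wv c x) < d ∧ wv c x 0 ≠ 0 := by
  have hpi := Real.pi_gt_three
  have h1 : 0 < d / 2 := by linarith
  refine ⟨c + ![d / 2, 0, 0], ?_, ?_⟩
  · have e0 : wv c (c + ![d / 2, 0, 0]) 0 = d / 2 := by
      rw [wv_0]
      refine wr_eq ⟨by linarith, by linarith⟩ ⟨0, ?_⟩
      simp
    have e1 : wv c (c + ![d / 2, 0, 0]) 1 = 0 := by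
      rw [wv_1]
      refine wr_eq ⟨by linarith, by linarith⟩ ⟨0, ?_⟩
      simp
    unfold rad
    rw [e0, e1]
    nlinarith
  · have e0 : wv c (c + ![d / 2, 0, 0]) 0 = d / 2 := by
      rw [wv_0]
      refine wr_eq ⟨by linarith, by linarith⟩ ⟨0, ?_⟩
      simp
    rw [e0]
    exact h1.ne'

lemma pos_of_ne {f : V → ℝ} (hp : Periodic3 f) (hc : Continuous f) (h0 : ∀ x, 0 ≤ f x) {x : V}
    (hx : f x ≠ 0) : 0 < ∫ x in Dom, f x := by
  refine lt_of_le_of_ne (integral_nonneg fun x => h0 x) fun h => ?_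
  exact hx (eq_zero_of_integral_eq_zero hp hc h0 h.symm x)

lemma e1_pos {d : ℝ} (hd0 : 0 < d) (hd : d ≤ 1) (c : V) : 0 < e1 d c := by
  obtain ⟨x, hx, hx0⟩ := exists_pt hd0 hd c
  refine pos_of_ne (periodic_comp c fun y => rad y * (pA d (rad y) * pA d (rad y)))
    (cont_comp hd (ht_k (AAR_rp d)) (sm_k (AAR_rp d)) c) (fun x => ?_) (x := x) ?_
  · exact mul_nonneg (rad_nonneg _) (mul_self_nonneg _)
  · have h1 := pA_pos hx
    have h2 : 0 < rad (wv c x) := by
      unfold rad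
      have : 0 < wv c x 0 ^ 2 := by positivity
      nlinarith [sq_nonneg (wv c x 1)]
    exact (mul_pos h2 (mul_pos h1 h1)).ne'

lemma e3_pos {d : ℝ} (hd0 : 0 < d) (hd : d ≤ 1) (c : V) : 0 < e3 d c := by
  obtain ⟨x, hx, hx0⟩ := exists_pt hd0 hd c
  refine pos_of_ne (periodic_comp c fun y => pA d (rad y) * pA d (rad y) * y 0 ^ 2)
    (cont_comp hd (ht_k0 (AA_rp d)) (sm_k0 (AA_rp d)) c) (fun x => ?_) (x := x) ?_
  · exact mul_nonneg (mul_self_nonneg _) (sq_nonneg _)
  · have h1 := pA_pos hx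
    exact (mul_pos (mul_pos h1 h1) (by positivity)).ne'

lemma e2_pos {d : ℝ} (hd0 : 0 < d) (hd : d ≤ 1) (c : V) : 0 < e2 d c := by
  have hpi := Real.pi_gt_three
  refine pos_of_ne (periodic_comp c fun y => pF d (rad y) * pF d (rad y))
    (cont_comp hd (ht_k (FF_rp d)) (sm_k (FF_rp d)) c) (fun x => mul_self_nonneg _) (x := c) ?_
  have h0 : wr 0 = 0 := wr_eq ⟨by linarith, by linarith⟩ ⟨0, by simp⟩
  have e : rad (wv c c) = 0 := by
    unfold rad
    simp [h0]
  have h1 : 0 < pA d 0 := pA_pos hd0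
  simp only [e]
  have : pF d 0 ≠ 0 := by
    unfold pF
    simp only [zero_mul, add_zero]
    intro h
    linarith
  exact mul_self_ne_zero.2 this

end Pool.Agent.R739.ET
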