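import Pool.Agent.R739.ET.Fin

/-!
# The theorems on steady and on growing solutions
-/

open MeasureTheory Set
open scoped ENNReal NNReal Topology Pointwise ContDiff

set_option autoImplicit false

namespace Pool.Agent.R739.ET

open Pool.Agent.H708R2.EulerSign Pool.Agent.H708R2.EulerModes

lemma uu_steady (v : V → V) (d α β : ℝ) (c : V) (N : ℕ) (t : ℝ) :
    uu v d α β 0 c N t = uu v d α β 0 c N 0 := by
  ext x i
  unfold uu wN U
  fin_cases i <;> simp

theorem main_steady (u₀ : V → V) (hper : Periodic3 u₀) (hL2 : MemLp u₀ 2 (volume.restrict cube))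
    (hdiv : WeakDivFree u₀) (K : ℕ) (s ε : ℝ) (hs : 0 < s) (hε : 0 < ε) :
    ∃ E₀ : ℝ, ∀ E : ℝ, E₀ ≤ E → ∀ H : ℝ, ∃ (v : V → V) (p : V → ℝ),
      ContDiff ℝ ∞ v ∧ ContDiff ℝ ∞ p ∧ IsClassicalSolution univ (fun _ => v) (fun _ => p) ∧
      SameModes K v u₀ ∧ HNegClose s ε v u₀ ∧ energy v = E ∧ helicity v = H ∧
      (∀ (T : ℝ) (w : ℝ → V → V) (q : ℝ → V → ℝ), IsClassicalSolution (Ico 0 T) w q →
        ∀ t₀ ∈ Ico 0 T, w t₀ = v → ∀ t ∈ Ico 0 T, w t = v) := by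
  obtain ⟨E₀, c, δ, hδ0, hδ, hE⟩ := core u₀ hper hL2 hdiv K s ε hs hε
  refine ⟨E₀, fun E hEE H => ?_⟩
  obtain ⟨N₀, hN₀⟩ := hE E hEE
  have ha := e1_pos (d := δ / 2) (by positivity) (by linarith) c
  have hb := e2_pos (d := δ / 2) (by positivity) (by linarith) c
  obtain ⟨N₁, hN₁⟩ := exists_nat_ge (e1 (δ / 2) c * H ^ 2 / e2 (δ / 2) c)
  set N := N₀ + N₁ + 1 with hN
  obtain ⟨hN0, v, hF, Ev, hEv, hEv0, hall⟩ := hN₀ N (by omega)
  have hNr : (1 : ℝ) ≤ N := by exact_mod_cast hN0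
  have hcond : e1 (δ / 2) c * H ^ 2 ≤ (E - Ev) ^ 2 * e2 (δ / 2) c * (N : ℝ) ^ 2 := by
    rw [div_le_iff₀ hb] at hN₁
    have h1 : (N₁ : ℝ) ≤ N := by exact_mod_cast (by omega : N₁ ≤ N)
    have h2 : (N : ℝ) ≤ (E - Ev) ^ 2 * (N : ℝ) ^ 2 := by
      have h3 : 1 ≤ E - Ev := by linarith
      have h4 : 1 ≤ (E - Ev) ^ 2 := by nlinarith
      nlinarith
    calc e1 (δ / 2) c * H ^ 2 ≤ N₁ * e2 (δ / 2) c := hN₁
      _ ≤ ((E - Ev) ^ 2 * (N : ℝ) ^ 2) * e2 (δ / 2) c := by gcongr; linarith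
      _ = _ := by ring
  obtain ⟨α, β, hα, -, h1, h2⟩ := params ha hb (by linarith : 0 < E - Ev)
    (by linarith : (0 : ℝ) < N) hcond
  obtain ⟨g1, g2, g3, g4⟩ := hall α β 0 (by linarith)
  have hst := uu_steady v (δ / 2) α β c N
  refine ⟨uu v (δ / 2) α β 0 c N 0, pN (δ / 2) α c N, ?_, pN_smooth (by linarith) α c N, ?_,
    g1, g2, g3, ?_, ?_⟩
  · exact hF.smooth.add (wN_slice hF hδ0 hδ α β 0 0)
  · have := uu_classical hF hδ0 hδ α β 0
    have e : (fun _ : ℝ => uu v (δ / 2) α β 0 c N 0) = uu v (δ / 2) α β 0 c N := by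
      ext1 t; exact (hst t).symm
    rw [e]; exact this
  · rw [g4]; exact h2
  · intro T w q hw t₀ ht₀ hwt t ht
    have := uu_unique hF hδ0 hδ α β 0 hw ht₀ (by rw [hwt, hst t₀]) t ht
    rw [this, hst t]

lemma exists_sign (X Y : ℝ) : ∃ σ : ℝ, σ ^ 2 = 1 ∧ |Y| ≤ |X - σ * Y| := by
  by_cases h : |Y| ≤ |X - Y|
  · exact ⟨1, by norm_num, by rwa [one_mul]⟩
  · refine ⟨-1, by norm_num, ?_⟩
    push Not at h
    by_contra h2
    push Not at h2
    have e : X - -1 * Y = X + Y := by ring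
    rw [e] at h2
    have h3 : |2 * Y| ≤ |X + Y| + |X - Y| := by
      have : 2 * Y = (X + Y) - (X - Y) := by ring
      rw [this]
      exact abs_sub _ _
    rw [abs_mul, abs_two] at h3
    linarith

/-- linear growth of the vorticity -/
lemma growth {d : ℝ} (hd0 : 0 < d) (hd : d ≤ 1) (α β γ : ℝ) (c : V) {N : ℕ} (hN : 0 < N)
    (t : ℝ) : ∃ x : V, rad (wv c ((N : ℝ) • x)) = d / 2 ∧
      (N : ℝ) ^ 2 * |γ * α * pA d (d / 2) * deriv (pA d) (d / 2)| * (d / 2) * |t|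
        ≤ ‖curl (wN d α β γ c N t) x‖ := by
  have hpi := Real.pi_gt_three
  have hNr : (0 : ℝ) < N := by exact_mod_cast hN
  set R : ℝ := d / 2 with hR
  have hR0 : 0 < R := by positivity
  have hR1 : R ≤ 1 := by rw [hR]; linarith
  set r : ℝ := Real.sqrt R with hr
  have hr0 : 0 < r := Real.sqrt_pos.2 hR0
  have hr2 : r ^ 2 = R := Real.sq_sqrt hR0.le
  have hr1 : r ≤ 1 := by
    rw [hr]
    exact Real.sqrt_le_iff.2 ⟨zero_le_one, by rw [one_pow]; exact hR1⟩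
  set A : ℝ := pA d R with hA
  set A' : ℝ := deriv (pA d) R with hA'
  set τ : ℝ := N * t with hτ
  set θ : ℝ := α * τ * A with hθ
  obtain ⟨σ, hσ, hσ2⟩ := exists_sign (2 * β * deriv (pF d) R * R) (2 * γ * α * A * A' * r * R * τ)
  have hσ1 : |σ| = 1 := by
    have : |σ| ^ 2 = 1 := by rw [sq_abs]; exact hσ
    have h0 := abs_nonneg σ
    nlinarith
  set y : V := ![σ * (r * Real.sin θ), σ * (r * Real.cos θ), 0] with hy
  have hsc := Real.sin_sq_add_cos_sq θ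
  have hrad : rad y = R := by
    have : rad y = σ ^ 2 * r ^ 2 * (Real.sin θ ^ 2 + Real.cos θ ^ 2) := by
      show (σ * (r * Real.sin θ)) ^ 2 + (σ * (r * Real.cos θ)) ^ 2 = _
      ring
    rw [this, hσ, hr2, hsc]; ring
  have hy0 : |y 0| ≤ r := by
    have : y 0 = σ * (r * Real.sin θ) := rfl
    rw [this, abs_mul, abs_mul, hσ1, abs_of_pos hr0, one_mul]
    have := Real.abs_sin_le_one θ
    nlinarith
  have hy1 : |y 1| ≤ r := by
    have : y 1 = σ * (r * Real.cos θ) := rfl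
    rw [this, abs_mul, abs_mul, hσ1, abs_of_pos hr0, one_mul]
    have := Real.abs_cos_le_one θ
    nlinarith
  have hwr : ∀ z : ℝ, |z| ≤ r → wr z = z := by
    intro z hz
    rw [abs_le] at hz
    exact wr_eq ⟨by linarith, by linarith⟩ ⟨0, by simp⟩
  have hNx : (N : ℝ) • ((N : ℝ)⁻¹ • (c + y)) = c + y := by
    rw [smul_smul, mul_inv_cancel₀ hNr.ne', one_smul]
  have hwv : wv c (c + y) = y := by
    ext i
    fin_cases i
    · show wr ((c + y) 0 - c 0) = y 0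
      rw [Pi.add_apply, add_sub_cancel_left]; exact hwr _ hy0
    · show wr ((c + y) 1 - c 1) = y 1
      rw [Pi.add_apply, add_sub_cancel_left]; exact hwr _ hy1
    · show (0 : ℝ) = y 2
      simp [hy]
  refine ⟨(N : ℝ)⁻¹ • (c + y), ?_, ?_⟩
  · rw [hNx, hwv, hrad]
  · rw [wN_curl hd, hNx, hwv, norm_smul, Real.norm_eq_abs, abs_of_pos hNr]
    set n : ℝ := ‖cu d α β γ (N * t) y‖ with hn
    have hn0 : 0 ≤ n := norm_nonneg _
    have h0 : |cb d α β γ τ y 2| ≤ n := norm_le_pi_norm (cu d α β γ (N * t) y) 0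
    have h1 : |ca d α β γ τ y 2| ≤ n := by
      have := norm_le_pi_norm (cu d α β γ (N * t) y) 1
      have e : cu d α β γ (N * t) y 1 = -ca d α β γ τ y 2 := rfl
      rw [e, norm_neg] at this
      exact this
    have key : y 0 * ca d α β γ τ y 2 + y 1 * cb d α β γ τ y 2
        = 2 * β * deriv (pF d) R * R - σ * (2 * γ * α * A * A' * r * R * τ) := by
      have ea : ca d α β γ τ y 2 = β * (deriv (pF d) R * (2 * y 0)) + γ * (
          2 * A' * y 0 * (y 0 * Real.cos θ - y 1 * Real.sin θ)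
          + A * (Real.cos θ - (y 0 * Real.sin θ + y 1 * Real.cos θ)
            * (α * τ * (A' * (2 * y 0))))) := by
        show β * (deriv (pF d) (rad y) * (2 * y 0)) + γ * (
          2 * deriv (pA d) (rad y) * y 0 * (y 0 * Real.cos (α * τ * pA d (rad y))
            - y 1 * Real.sin (α * τ * pA d (rad y)))
          + pA d (rad y) * (Real.cos (α * τ * pA d (rad y))
            - (y 0 * Real.sin (α * τ * pA d (rad y)) + y 1 * Real.cos (α * τ * pA d (rad y)))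
              * (α * τ * (deriv (pA d) (rad y) * (2 * y 0))))) = _
        rw [hrad]
      have eb : cb d α β γ τ y 2 = β * (deriv (pF d) R * (2 * y 1)) + γ * (
          2 * A' * y 1 * (y 0 * Real.cos θ - y 1 * Real.sin θ)
          + A * (-Real.sin θ - (y 0 * Real.sin θ + y 1 * Real.cos θ)
            * (α * τ * (A' * (2 * y 1))))) := by
        show β * (deriv (pF d) (rad y) * (2 * y 1)) + γ * (
          2 * deriv (pA d) (rad y) * y 1 * (y 0 * Real.cos (α * τ * pA d (rad y))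
            - y 1 * Real.sin (α * τ * pA d (rad y)))
          + pA d (rad y) * (-Real.sin (α * τ * pA d (rad y))
            - (y 0 * Real.sin (α * τ * pA d (rad y)) + y 1 * Real.cos (α * τ * pA d (rad y)))
              * (α * τ * (deriv (pA d) (rad y) * (2 * y 1))))) = _
        rw [hrad]
      have q0 : y 0 * Real.cos θ - y 1 * Real.sin θ = 0 := by
        have a0 : y 0 = σ * (r * Real.sin θ) := rfl
        have a1 : y 1 = σ * (r * Real.cos θ) := rfl
        rw [a0, a1]; ring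
      have q1 : y 0 * Real.sin θ + y 1 * Real.cos θ = σ * r := by
        have a0 : y 0 = σ * (r * Real.sin θ) := rfl
        have a1 : y 1 = σ * (r * Real.cos θ) := rfl
        rw [a0, a1]
        have : σ * (r * Real.sin θ) * Real.sin θ + σ * (r * Real.cos θ) * Real.cos θ
            = σ * r * (Real.sin θ ^ 2 + Real.cos θ ^ 2) := by ring
        rw [this, hsc, mul_one]
      have q2 : y 0 ^ 2 + y 1 ^ 2 = R := hrad
      rw [ea, eb, q0, q1]
      linear_combination (2 * β * deriv (pF d) R - 2 * γ * α * A * A' * σ * r * τ) * q2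
        + γ * A * q0
    rw [← key] at hσ2
    have h2 : |y 0 * ca d α β γ τ y 2 + y 1 * cb d α β γ τ y 2| ≤ 2 * r * n := by
      refine (abs_add_le _ _).trans ?_
      rw [abs_mul, abs_mul]
      have := mul_le_mul hy0 h1 (abs_nonneg _) hr0.le
      have := mul_le_mul hy1 h0 (abs_nonneg _) hr0.le
      linarith
    have h3 : |2 * γ * α * A * A' * r * R * τ| = 2 * r * (|γ * α * A * A'| * R * (N * |t|)) := by
      have : 2 * γ * α * A * A' * r * R * τ = (2 * r) * ((γ * α * A * A') * R * τ) := by ring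
      rw [this, abs_mul (2 * r), abs_mul (γ * α * A * A' * R), abs_mul (γ * α * A * A'),
        abs_of_pos hR0, hτ, abs_mul (N : ℝ), abs_of_pos hNr,
        abs_of_pos (by positivity : (0 : ℝ) < 2 * r)]
    have h4 : |γ * α * A * A'| * R * (N * |t|) ≤ n := by
      have h5 : 2 * r * (|γ * α * A * A'| * R * (N * |t|)) ≤ 2 * r * n := by
        rw [← h3]; exact hσ2.trans h2
      exact le_of_mul_le_mul_left h5 (by positivity)
    calc (N : ℝ) ^ 2 * |γ * α * A * A'| * R * |t| = N * (|γ * α * A * A'| * R * (N * |t|)) := by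
          ring
      _ ≤ N * n := by gcongr

theorem main_growth (u₀ : V → V) (hper : Periodic3 u₀) (hL2 : MemLp u₀ 2 (volume.restrict cube))
    (hdiv : WeakDivFree u₀) (K : ℕ) (s ε : ℝ) (hs : 0 < s) (hε : 0 < ε) :
    ∃ E₀ : ℝ, ∀ E : ℝ, E₀ ≤ E → ∀ H Λ : ℝ, ∃ (u : ℝ → V → V) (p : V → ℝ),
      ContDiff ℝ ∞ (fun z : ℝ × V => u z.1 z.2) ∧ ContDiff ℝ ∞ p ∧
      IsClassicalSolution univ u (fun _ => p) ∧
      SameModes K (u 0) u₀ ∧ HNegClose s ε (u 0) u₀ ∧ energy (u 0) = E ∧ helicity (u 0) = H ∧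
      (∀ t : ℝ, ∃ x : V, Λ * |t| ≤ ‖curl (u t) x‖) ∧
      (∀ (T : ℝ) (w : ℝ → V → V) (q : ℝ → V → ℝ), IsClassicalSolution (Ico 0 T) w q →
        ∀ t₀ ∈ Ico 0 T, w t₀ = u t₀ → ∀ t ∈ Ico 0 T, w t = u t) := by
  obtain ⟨E₀, c, δ, hδ0, hδ, hE⟩ := core u₀ hper hL2 hdiv K s ε hs hε
  refine ⟨E₀, fun E hEE H Λ => ?_⟩
  obtain ⟨N₀, hN₀⟩ := hE E hEE
  have hd0 : 0 < δ / 2 := by positivity
  have hd1 : δ / 2 ≤ 1 := by linarith
  have ha := e1_pos (d := δ / 2) hd0 hd1 c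
  have hb := e2_pos (d := δ / 2) hd0 hd1 c
  have hc := e3_pos (d := δ / 2) hd0 hd1 c
  set A : ℝ := pA (δ / 2) (δ / 2 / 2) with hA
  set A' : ℝ := deriv (pA (δ / 2)) (δ / 2 / 2) with hA'
  have hA0 : 0 < A := pA_pos (by linarith)
  have hA'0 : A' ≠ 0 := by
    rw [hA', pA_deriv]
    have h1 : δ / 2 - δ / 2 / 2 ≠ 0 := by
      have : δ / 2 - δ / 2 / 2 = δ / 4 := by ring
      rw [this]; positivity
    have h2 : pA (δ / 2) (δ / 2 / 2) ≠ 0 := hA0.ne'
    exact neg_ne_zero.2 (mul_ne_zero (pow_ne_zero 2 (inv_ne_zero h1)) h2)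
  set g0 : ℝ := Real.sqrt (1 / (2 * e3 (δ / 2) c)) * Real.sqrt (1 / (4 * e1 (δ / 2) c)) *
    |A * A'| * (δ / 2 / 2) with hg0
  have hg0pos : 0 < g0 := by
    have : 0 < |A * A'| := abs_pos.2 (mul_ne_zero hA0.ne' hA'0)
    positivity
  obtain ⟨N₁, hN₁⟩ := exists_nat_ge (4 * (e1 (δ / 2) c * H ^ 2) / e2 (δ / 2) c)
  obtain ⟨N₂, hN₂⟩ := exists_nat_ge (Λ / g0)
  set N := N₀ + N₁ + N₂ + 1 with hN
  obtain ⟨hN0, v, hF, Ev, hEv, hEv0, hall⟩ := hN₀ N (by omega)
  have hNr : (1 : ℝ) ≤ N := by exact_mod_cast hN0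
  have he1 : 1 ≤ E - Ev := by linarith
  have hcond : e1 (δ / 2) c * H ^ 2 ≤ ((E - Ev) / 2) ^ 2 * e2 (δ / 2) c * (N : ℝ) ^ 2 := by
    rw [div_le_iff₀ hb] at hN₁
    have h1 : (N₁ : ℝ) ≤ N := by exact_mod_cast (by omega : N₁ ≤ N)
    have h2 : (N : ℝ) ≤ 4 * (((E - Ev) / 2) ^ 2 * (N : ℝ) ^ 2) := by
      have h4 : 1 ≤ (E - Ev) ^ 2 := by nlinarith
      have h5 : 4 * (((E - Ev) / 2) ^ 2 * (N : ℝ) ^ 2) = (E - Ev) ^ 2 * (N : ℝ) ^ 2 := by ring
      rw [h5]
      nlinarith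
    have h3 : 4 * (e1 (δ / 2) c * H ^ 2)
        ≤ 4 * (((E - Ev) / 2) ^ 2 * (N : ℝ) ^ 2) * e2 (δ / 2) c := by
      refine hN₁.trans ?_
      gcongr
      linarith
    linarith
  obtain ⟨α, β, hα, hα2, h1, h2⟩ := params ha hb (by linarith : 0 < (E - Ev) / 2)
    (by linarith : (0 : ℝ) < N) hcond
  set γ : ℝ := Real.sqrt ((E - Ev) / (2 * e3 (δ / 2) c)) with hγ
  have hγ2 : γ ^ 2 = (E - Ev) / (2 * e3 (δ / 2) c) := Real.sq_sqrt (by positivity)
  have hγ3 : γ ^ 2 * e3 (δ / 2) c = (E - Ev) / 2 := by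
    rw [hγ2]; field_simp
  obtain ⟨g1, g2, g3, g4⟩ := hall α β γ (by linarith)
  have hγlow : Real.sqrt (1 / (2 * e3 (δ / 2) c)) ≤ γ := by
    rw [hγ]
    apply Real.sqrt_le_sqrt
    gcongr
  have hαlow : Real.sqrt (1 / (4 * e1 (δ / 2) c)) ≤ α := by
    rw [Real.sqrt_le_left hα.le]
    refine le_trans ?_ hα2
    rw [div_div, div_le_div_iff₀ (by positivity) (by positivity)]
    nlinarith
  refine ⟨uu v (δ / 2) α β γ c N, pN (δ / 2) α c N, uu_joint hF hδ0 hδ α β γ,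
    pN_smooth (by linarith) α c N, uu_classical hF hδ0 hδ α β γ, g1, g2, g3, ?_, ?_, ?_⟩
  · rw [g4]; exact h2
  · intro t
    obtain ⟨x, hx1, hx2⟩ := growth hd0 hd1 α β γ c hN0 t
    refine ⟨x, ?_⟩
    rw [uu_curl hF hδ0 hδ]
    have hv0 : curl v x = 0 := by
      rcases tube_cases c N hδ0 hδ x with h | h
      · have h1 : v =ᶠ[𝓝 x] fun _ => 0 := by
          filter_upwards [h] with y hy
          exact hF.tube y hy
        apply curl_zero_of
        rw [h1.fderiv_eq]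
        simp
      · have := h.self_of_nhds
        rw [hx1] at this
        linarith
    rw [hv0, zero_add]
    refine le_trans ?_ hx2
    have hg : Λ ≤ (N : ℝ) ^ 2 * |γ * α * A * A'| * (δ / 2 / 2) := by
      rw [div_le_iff₀ hg0pos] at hN₂
      have h3 : (N₂ : ℝ) ≤ N := by exact_mod_cast (by omega : N₂ ≤ N)
      have h4 : (N : ℝ) ≤ (N : ℝ) ^ 2 := by nlinarith
      have h5 : g0 ≤ |γ * α * A * A'| * (δ / 2 / 2) := by
        have e : |γ * α * A * A'| = γ * α * |A * A'| := by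
          rw [mul_assoc, abs_mul, abs_of_nonneg (mul_nonneg (Real.sqrt_nonneg _) hα.le)]
        rw [e, hg0]
        have hγ0 : 0 ≤ γ := Real.sqrt_nonneg _
        have : Real.sqrt (1 / (2 * e3 (δ / 2) c)) * Real.sqrt (1 / (4 * e1 (δ / 2) c)) ≤ γ * α :=
          mul_le_mul hγlow hαlow (Real.sqrt_nonneg _) hγ0
        gcongr
      calc Λ ≤ N₂ * g0 := hN₂
        _ ≤ (N : ℝ) ^ 2 * g0 := by
            have := hg0pos.le
            gcongr
            linarith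
        _ ≤ (N : ℝ) ^ 2 * (|γ * α * A * A'| * (δ / 2 / 2)) := by gcongr
        _ = _ := by ring
    gcongr
  · intro T w q hw t₀ ht₀ hwt
    exact uu_unique hF hδ0 hδ α β γ hw ht₀ hwt

end Pool.Agent.R739.ET
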