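import Pool.Agent.R739.ET.Calc

/-!
# Radial profiles
-/

open MeasureTheory Set
open scoped ENNReal NNReal Topology Pointwise ContDiff

set_option autoImplicit false

namespace Pool.Agent.R739.ET

open Pool.Agent.H708R2.EulerSign Pool.Agent.H708R2.EulerModes

/-- smooth functions which vanish on `[d, ∞)` -/
structure RP (d : ℝ) (k : ℝ → ℝ) : Prop where
  smooth : ContDiff ℝ ∞ k
  van : ∀ R, d ≤ R → k R = 0

lemma RP.ht {d : ℝ} {k : ℝ → ℝ} (hk : RP d k) : HT d (fun y => k (rad y)) := by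
  refine ⟨fun y z h0 h1 => ?_, fun y hy => hk.van _ hy⟩
  unfold rad
  rw [h0, h1]

lemma RP.deriv {d : ℝ} {k : ℝ → ℝ} (hk : RP d k) : RP d (_root_.deriv k) := by
  have h1 : ContDiff ℝ ∞ (_root_.deriv k) := (contDiff_infty_iff_deriv.1 hk.smooth).2
  refine ⟨h1, fun R hR => ?_⟩
  have h2 : ∀ R, d < R → _root_.deriv k R = 0 := by
    intro R hR
    have : k =ᶠ[𝓝 R] fun _ => 0 := by
      filter_upwards [lt_mem_nhds hR] with s hs
      exact hk.van s hs.le
    rw [this.deriv_eq]
    simp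
  rcases hR.lt_or_eq with h | h
  · exact h2 R h
  · subst h
    have h3 : Filter.Tendsto (_root_.deriv k) (𝓝[>] d) (𝓝 (_root_.deriv k d)) :=
      (h1.continuous.tendsto d).mono_left nhdsWithin_le_nhds
    have h4 : Filter.Tendsto (_root_.deriv k) (𝓝[>] d) (𝓝 0) := by
      refine (tendsto_const_nhds (x := (0 : ℝ))).congr' ?_
      filter_upwards [self_mem_nhdsWithin] with s hs
      exact (h2 s hs).symm
    exact tendsto_nhds_unique h3 h4

lemma RP.hasDerivAt {d : ℝ} {k : ℝ → ℝ} (hk : RP d k) (R : ℝ) :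
    HasDerivAt k (_root_.deriv k R) R :=
  ((hk.smooth.differentiable (by simp)) R).hasDerivAt

lemma RP.mul {d : ℝ} {k g : ℝ → ℝ} (hk : RP d k) (hg : ContDiff ℝ ∞ g) :
    RP d (fun R => g R * k R) :=
  ⟨hg.mul hk.smooth, fun R hR => by rw [hk.van R hR, mul_zero]⟩

lemma RP.add {d : ℝ} {k g : ℝ → ℝ} (hk : RP d k) (hg : RP d g) :
    RP d (fun R => k R + g R) :=
  ⟨hk.smooth.add hg.smooth, fun R hR => by rw [hk.van R hR, hg.van R hR, add_zero]⟩

/-- the primitive which vanishes on `[d, ∞)` -/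
noncomputable def prim (d : ℝ) (k : ℝ → ℝ) (R : ℝ) : ℝ := ∫ s in d..R, k s

lemma prim_hasDerivAt {d : ℝ} {k : ℝ → ℝ} (hk : RP d k) (R : ℝ) :
    HasDerivAt (prim d k) (k R) R := by
  have hc := hk.smooth.continuous
  exact intervalIntegral.integral_hasDerivAt_right (hc.intervalIntegrable _ _)
    (hc.stronglyMeasurableAtFilter _ _) hc.continuousAt

lemma RP.prim {d : ℝ} {k : ℝ → ℝ} (hk : RP d k) : RP d (prim d k) := by
  refine ⟨?_, fun R hR => ?_⟩
  · rw [contDiff_infty_iff_deriv]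
    refine ⟨fun R => (prim_hasDerivAt hk R).differentiableAt, ?_⟩
    have : _root_.deriv (ET.prim d k) = k := by
      ext R; exact (prim_hasDerivAt hk R).deriv
    rw [this]; exact hk.smooth
  · unfold ET.prim
    rw [intervalIntegral.integral_of_le hR]
    refine setIntegral_eq_zero_of_forall_eq_zero fun s hs => ?_
    exact hk.van s hs.1.le

/-- the basic profile -/
noncomputable def pA (d R : ℝ) : ℝ := expNegInvGlue (d - R)

lemma pA_rp (d : ℝ) : RP d (pA d) := by
  refine ⟨?_, fun R hR => ?_⟩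
  · exact expNegInvGlue.contDiff.comp (contDiff_const.sub contDiff_id)
  · exact expNegInvGlue.zero_of_nonpos (by linarith)

lemma pA_pos {d R : ℝ} (h : R < d) : 0 < pA d R := expNegInvGlue.pos_of_pos (by linarith)

lemma pA_deriv (d R : ℝ) : deriv (pA d) R = -((d - R)⁻¹ ^ 2 * pA d R) := by
  have h1 := expNegInvGlue.hasDerivAt_polynomial_eval_inv_mul 1 (d - R)
  have h2 : HasDerivAt (fun R : ℝ => d - R) (-1) R := by
    simpa using (hasDerivAt_id R).const_sub d
  have h3 := h1.comp R h2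
  have e : ((fun x : ℝ => Polynomial.eval x⁻¹ (1 : Polynomial ℝ) * expNegInvGlue x) ∘
      fun R => d - R) = pA d := by
    ext R; simp [pA]
  rw [e] at h3
  rw [h3.deriv]
  simp [pA]

/-- the vorticity of the swirl with angular velocity `-pA` -/
noncomputable def pF (d R : ℝ) : ℝ := -2 * (pA d R + R * deriv (pA d) R)

lemma pF_rp (d : ℝ) : RP d (pF d) := by
  have h1 : RP d (fun R => pA d R + R * deriv (pA d) R) :=
    (pA_rp d).add ((pA_rp d).deriv.mul contDiff_id)
  exact h1.mul contDiff_const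

end Pool.Agent.R739.ET
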