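import Pool.Agent.R739.ET.Build

/-!
# The rescaled swirling flow
-/

open MeasureTheory Set
open scoped ENNReal NNReal Topology Pointwise ContDiff

set_option autoImplicit false

namespace Pool.Agent.R739.ET

open Pool.Agent.H708R2.EulerSign Pool.Agent.H708R2.EulerModes

lemma W_joint {d : ℝ} (hd : d ≤ 1) (α β γ : ℝ) (c : V) :
    ContDiff ℝ ∞ (fun z : ℝ × V => U d α β γ z.1 (wv c z.2)) := by
  rw [contDiff_iff_contDiffAt]
  intro z₀
  have h : (fun z : ℝ × V => U d α β γ z.1 (wv c z.2)) =ᶠ[𝓝 z₀]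
      fun z => U d α β γ z.1 (z.2 + tau c z₀.2) := by
    have h1 : ∀ᶠ z : ℝ × V in 𝓝 z₀, ∀ i, |z.2 i - z₀.2 i| < 1 :=
      (continuous_snd.tendsto z₀).eventually (wv_eventually z₀.2)
    filter_upwards [h1] with z hz
    exact wv_near c z₀.2 z.2 hz hd (U_ht d α β γ z.1)
  refine ContDiffAt.congr_of_eventuallyEq ?_ h
  have h2 : ContDiff ℝ ∞ (fun z : ℝ × V => ((z.1, z.2 + tau c z₀.2) : ℝ × V)) :=
    contDiff_fst.prodMk (contDiff_snd.add contDiff_const)
  exact ((U_joint d α β γ).comp h2).contDiffAt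

lemma periodic_resc {F : Type*} {f : V → F} (hp : Periodic3 f) (N : ℕ) :
    Periodic3 (fun x => f ((N : ℝ) • x)) := by
  intro i x
  simp only
  have : (N : ℝ) • (x + Pi.single i (2 * Real.pi))
      = (N : ℝ) • x + N • (Pi.single i (2 * Real.pi) : V) := by
    rw [smul_add, Nat.cast_smul_eq_nsmul ℝ N (Pi.single i (2 * Real.pi) : V)]
  rw [this]
  have hmem : N • (Pi.single i (2 * Real.pi) : V) ∈ Pool.Agent.H708R2.EulerSign.Lat := by
    apply AddSubgroup.nsmul_mem
    rw [← bas_apply]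
    exact Submodule.subset_span ⟨i, rfl⟩
  exact hp.lat hmem _

lemma fine_resc {F : Type*} {f : V → F} (hp : Periodic3 f) {N : ℕ} (hN : 0 < N) (i : Fin 3)
    (x : V) : (fun x => f ((N : ℝ) • x)) (x + Pi.single i (2 * Real.pi / N))
      = (fun x => f ((N : ℝ) • x)) x := by
  simp only
  have hNr : (N : ℝ) ≠ 0 := by positivity
  have : (N : ℝ) • (x + Pi.single i (2 * Real.pi / N))
      = (N : ℝ) • x + (Pi.single i (2 * Real.pi) : V) := by
    rw [smul_add]
    congr 1
    ext j
    by_cases hj : j = i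
    · subst hj; simp; field_simp
    · simp [hj]
  rw [this, hp]

lemma fderiv_resc {E : Type*} [NormedAddCommGroup E] [NormedSpace ℝ E] {f : V → E}
    (hf : Differentiable ℝ f) (a : ℝ) (x e : V) :
    fderiv ℝ (fun x => f (a • x)) x e = a • fderiv ℝ f (a • x) e := by
  have h1 : HasFDerivAt (fun x : V => a • x) (a • ContinuousLinearMap.id ℝ V) x :=
    (hasFDerivAt_id x).const_smul a
  have h2 := (hf (a • x)).hasFDerivAt.comp x h1
  have h3 : fderiv ℝ (fun x => f (a • x)) x
      = (fderiv ℝ f (a • x)).comp (a • ContinuousLinearMap.id ℝ V) := h2.fderiv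
  rw [h3]
  simp

/-- the rescaled flow -/
noncomputable def wN (d α β γ : ℝ) (c : V) (N : ℕ) (t : ℝ) (x : V) : V :=
  U d α β γ (N * t) (wv c ((N : ℝ) • x))

/-- its pressure -/
noncomputable def pN (d α : ℝ) (c : V) (N : ℕ) (x : V) : ℝ := Pr d α (wv c ((N : ℝ) • x))

section

variable {d : ℝ} (hd : d ≤ 1) (α β γ : ℝ) (c : V) (N : ℕ)

include hd

lemma wN_joint : ContDiff ℝ ∞ (fun z : ℝ × V => wN d α β γ c N z.1 z.2) := by
  have h : ContDiff ℝ ∞ (fun z : ℝ × V => (((N : ℝ) * z.1, (N : ℝ) • z.2) : ℝ × V)) :=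
    (contDiff_const.mul contDiff_fst).prodMk (contDiff_snd.const_smul (N : ℝ))
  have h2 := (W_joint hd α β γ c).comp h
  simp only [Function.comp_def] at h2
  unfold wN
  exact h2

lemma pN_smooth : ContDiff ℝ ∞ (pN d α c N) := by
  have h2 := ((Pr_ht d α).contDiff hd (Pr_smooth d α) c).comp
    (contDiff_id.const_smul (N : ℝ) : ContDiff ℝ ∞ (fun x : V => (N : ℝ) • x))
  simp only [Function.comp_def] at h2
  unfold pN
  exact h2

omit hd in
lemma wN_periodic (t : ℝ) : Periodic3 (wN d α β γ c N t) := by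
  have h := periodic_resc (periodic_comp c (U d α β γ (N * t))) N
  unfold wN
  exact h

omit hd in
lemma pN_periodic : Periodic3 (pN d α c N) := by
  have h := periodic_resc (periodic_comp c (Pr d α)) N
  unfold pN
  exact h

lemma W_diff (t : ℝ) : Differentiable ℝ (fun x => U d α β γ t (wv c x)) := by
  have h : ContDiff ℝ ∞ (fun x : V => ((t, x) : ℝ × V)) := contDiff_const.prodMk contDiff_id
  exact ((W_joint hd α β γ c).comp h).differentiable (by simp)

lemma wN_fderiv (t : ℝ) (x e : V) (i : Fin 3) :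
    fderiv ℝ (wN d α β γ c N t) x e i
      = N * fderiv ℝ (U d α β γ (N * t)) ((N : ℝ) • x + tau c ((N : ℝ) • x)) e i := by
  have h := fderiv_resc (W_diff hd α β γ c (N * t)) (N : ℝ) x e
  have h2 : fderiv ℝ (wN d α β γ c N t) x e
      = (N : ℝ) • fderiv ℝ (fun x => U d α β γ (N * t) (wv c x)) ((N : ℝ) • x) e := h
  rw [h2, (U_ht d α β γ (N * t)).fderiv hd]
  rfl

omit hd in
lemma wN_self (t : ℝ) (x : V) :
    wN d α β γ c N t x = U d α β γ (N * t) ((N : ℝ) • x + tau c ((N : ℝ) • x)) :=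
  (U_ht d α β γ (N * t)).self c ((N : ℝ) • x)

lemma wN_div (t : ℝ) (x : V) : divergence (wN d α β γ c N t) x = 0 := by
  have h := U_div d α β γ (N * t) ((N : ℝ) • x + tau c ((N : ℝ) • x))
  rw [divergence_eq_sum] at h ⊢
  simp only [wN_fderiv hd, ← Finset.mul_sum]
  rw [h, mul_zero]

lemma pN_fderiv (x e : V) :
    fderiv ℝ (pN d α c N) x e
      = N * fderiv ℝ (Pr d α) ((N : ℝ) • x + tau c ((N : ℝ) • x)) e := by
  have h := fderiv_resc (f := fun x => Pr d α (wv c x))
    (((Pr_ht d α).contDiff hd (Pr_smooth d α) c).differentiable (by simp)) (N : ℝ) x e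
  have h2 : fderiv ℝ (pN d α c N) x e
      = (N : ℝ) • fderiv ℝ (fun x => Pr d α (wv c x)) ((N : ℝ) • x) e := h
  rw [h2, (Pr_ht d α).fderiv hd]
  rfl

lemma wN_momentum (t : ℝ) (x : V) (i : Fin 3) :
    deriv (fun s => wN d α β γ c N s x i) t
      + fderiv ℝ (wN d α β γ c N t) x (wN d α β γ c N t x) i
      = - fderiv ℝ (pN d α c N) x (Pi.single i 1) := by
  have h := U_momentum d α β γ (N * t) ((N : ℝ) • x + tau c ((N : ℝ) • x)) i
  rw [wN_fderiv hd, pN_fderiv hd, ← mul_neg, ← h, ← wN_self, mul_add]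
  congr 1
  have h1 : (fun s => wN d α β γ c N s x i)
      = fun s => U d α β γ (N * s) ((N : ℝ) • x + tau c ((N : ℝ) • x)) i := by
    ext s; rw [wN_self]
  have h2 := U_time d α β γ (N * t) ((N : ℝ) • x + tau c ((N : ℝ) • x)) i
  have h3 : HasDerivAt (fun s : ℝ => (N : ℝ) * s) (N : ℝ) t := by
    simpa using (hasDerivAt_id t).const_mul (N : ℝ)
  have h4 := h2.comp t h3
  rw [h1, h2.deriv]
  have h5 := h4.deriv
  rw [mul_comm]
  exact h5

lemma wN_curl (t : ℝ) (x : V) :
    curl (wN d α β γ c N t) x = (N : ℝ) • cu d α β γ (N * t) (wv c ((N : ℝ) • x)) := by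
  have h := curl_W hd α β γ (N * t) c ((N : ℝ) • x)
  rw [cu_wv] at h
  rw [← h]
  have hg : ∀ a b, grad (wN d α β γ c N t) x a b
      = N * grad (fun x => U d α β γ (N * t) (wv c x)) ((N : ℝ) • x) a b := by
    intro a b
    show fderiv ℝ (wN d α β γ c N t) x (Pi.single b 1) a
      = N * (fderiv ℝ (fun x => U d α β γ (N * t) (wv c x)) ((N : ℝ) • x) (Pi.single b 1) a)
    rw [wN_fderiv hd, (U_ht d α β γ (N * t)).fderiv hd]
  unfold curl
  simp only [hg]
  ext i
  fin_cases i <;> simp <;> ring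

omit hd in
/-- the tube is closed off -/
lemma tube_cases {δ : ℝ} (hδ0 : 0 < δ) (hδ : δ ≤ 1) (x₀ : V) :
    (∀ᶠ x in 𝓝 x₀, rad (wv c ((N : ℝ) • x)) < δ) ∨
    (∀ᶠ x in 𝓝 x₀, δ / 2 ≤ rad (wv c ((N : ℝ) • x))) := by
  have hh : HT δ (fun y : V => max (δ - rad y) 0) := by
    refine ⟨fun y z h0 h1 => ?_, fun y hy => ?_⟩
    · simp only [rad, h0, h1]
    · exact max_eq_right (by linarith)
  have hc0 : ContDiff ℝ 0 (fun y : V => max (δ - rad y) 0) := by
    rw [contDiff_zero]
    exact (continuous_const.sub (rad_contDiff (n := 0)).continuous).max continuous_const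
  have hc : Continuous (fun x => (fun y : V => max (δ - rad y) 0) (wv c ((N : ℝ) • x))) :=
    (hh.contDiff hδ hc0 c).continuous.comp (continuous_const_smul (N : ℝ))
  rcases lt_or_ge 0 ((fun y : V => max (δ - rad y) 0) (wv c ((N : ℝ) • x₀))) with h | h
  · left
    filter_upwards [hc.continuousAt.eventually (lt_mem_nhds h)] with x hx
    rcases lt_max_iff.1 hx with h | h
    · linarith
    · exact absurd h (lt_irrefl _)
  · right
    have h1 : (fun y : V => max (δ - rad y) 0) (wv c ((N : ℝ) • x₀)) < δ / 2 := by linarith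
    filter_upwards [hc.continuousAt.eventually (gt_mem_nhds h1)] with x hx
    have := (le_max_left _ _).trans_lt hx
    linarith

omit hd in
lemma wN_zero {t : ℝ} {x : V} (h : d ≤ rad (wv c ((N : ℝ) • x))) : wN d α β γ c N t x = 0 :=
  (U_ht d α β γ (N * t)).van _ h

omit hd in
lemma pN_zero {x : V} (h : d ≤ rad (wv c ((N : ℝ) • x))) : pN d α c N x = 0 :=
  (Pr_ht d α).van _ h

/-- the low modes vanish -/
lemma wN_modes (hN : 0 < N) (l : Fin 3 → ℤ) (hl : ∀ i, |l i| < N) (i : Fin 3) :
    ∫ x in Dom, wN d α β γ c N 0 x i * Real.cos (ph l x) = 0 ∧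
    ∫ x in Dom, wN d α β γ c N 0 x i * Real.sin (ph l x) = 0 := by
  set f : V → ℝ := fun x => U d α β γ 0 (wv c x) i with hf
  have hfc : Continuous f := (continuous_apply i).comp (W_diff hd α β γ c 0).continuous
  have hfp : Periodic3 f := periodic_comp c (fun y => U d α β γ 0 y i)
  have e : ∀ x, wN d α β γ c N 0 x i = (fun x => f ((N : ℝ) • x)) x := by
    intro x
    simp only [wN, f, mul_zero]
  have hmean : ∫ x in Dom, f x = 0 := by
    fin_cases i
    · have h := int_y1 hd (pA_rp d) c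
      have : ∀ x, f x = α * (pA d (rad (wv c x)) * wv c x 1) := fun x => rfl
      simp only [this]
      rw [integral_const_mul, h, mul_zero]
    · have h := int_y0 hd (pA_rp d) c
      have : ∀ x, f x = (-α) * (pA d (rad (wv c x)) * wv c x 0) := by
        intro x
        show -(α * (pA d (rad (wv c x)) * wv c x 0)) = _
        ring
      simp only [this]
      rw [integral_const_mul, h, mul_zero]
    · have h := int_y0 hd (pA_rp d) c
      have h2 := int_F hd c
      have : ∀ x, f x = β * pF d (rad (wv c x)) + γ * (pA d (rad (wv c x)) * wv c x 0) :=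
        fun x => U0_2 d α β γ (wv c x)
      simp only [this]
      rw [integral_add, integral_const_mul, integral_const_mul, h, h2]
      · ring
      · exact (int_comp hd (ht_k (pF_rp d)) (sm_k (pF_rp d)) c).const_mul _
      · exact (int_comp hd (ht_k0' (pA_rp d)) (sm_k0' (pA_rp d)) c).const_mul _
  simp only [e]
  by_cases h0 : l = 0
  · subst h0
    simp only [ph_zero, Real.cos_zero, Real.sin_zero, mul_one, mul_zero, integral_zero, and_true]
    have := integral_dilate hfp hfc hN
    rw [this, hmean]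
  · obtain ⟨j, hj⟩ : ∃ j, l j ≠ 0 := by
      by_contra hcon
      push Not at hcon
      exact h0 (funext hcon)
    exact integral_trig_eq_zero (periodic_resc hfp N) (hfc.comp (continuous_const_smul (N : ℝ))) hN
      (fun i x => fine_resc hfp hN i x) hj (hl j)

lemma wN_energy (hN : 0 < N) :
    ∫ x in Dom, ∑ i, wN d α β γ c N 0 x i ^ 2
      = α ^ 2 * e1 d c + β ^ 2 * e2 d c + γ ^ 2 * e3 d c := by
  rw [← energy_W hd]
  have hfc : Continuous (fun x => ∑ i, U d α β γ 0 (wv c x) i ^ 2) :=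
    continuous_finsetSum _ fun i _ =>
      ((continuous_apply i).comp (W_diff hd α β γ c 0).continuous).pow 2
  have h := integral_dilate (f := fun x => ∑ i, U d α β γ 0 (wv c x) i ^ 2)
    (periodic_comp c fun y => ∑ i, U d α β γ 0 y i ^ 2) hfc hN
  rw [← h]
  simp only [wN, mul_zero]

lemma wN_helicity (hN : 0 < N) :
    ∫ x in Dom, ∑ i, wN d α β γ c N 0 x i * curl (wN d α β γ c N 0) x i
      = N * (2 * α * β * e2 d c) := by
  rw [← helicity_W hd α β γ c]
  have hcu : ∀ x, cu d α β γ 0 (wv c x) = curl (fun x => U d α β γ 0 (wv c x)) x := by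
    intro x
    rw [curl_W hd, cu_wv]
  have hW : ContDiff ℝ 1 (fun x => U d α β γ 0 (wv c x)) := by
    have h : ContDiff ℝ ∞ (fun x : V => (((0 : ℝ), x) : ℝ × V)) :=
      contDiff_const.prodMk contDiff_id
    exact ((W_joint hd α β γ c).comp h).of_le (by exact_mod_cast le_top)
  have hcc : Continuous (fun x => cu d α β γ 0 (wv c x)) := by
    simp only [hcu]
    have hg := continuous_grad hW
    have hgab : ∀ a b, Continuous (fun x => grad (fun x => U d α β γ 0 (wv c x)) x a b) :=
      fun a b => hg.matrix_elem a b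
    unfold curl
    rw [continuous_pi_iff]
    intro i
    fin_cases i
    · exact (hgab 2 1).sub (hgab 1 2)
    · exact (hgab 0 2).sub (hgab 2 0)
    · exact (hgab 1 0).sub (hgab 0 1)
  have hfc : Continuous (fun x => ∑ i, U d α β γ 0 (wv c x) i * cu d α β γ 0 (wv c x) i) :=
    continuous_finsetSum _ fun i _ =>
      ((continuous_apply i).comp hW.continuous).mul ((continuous_apply i).comp hcc)
  have h := integral_dilate
    (f := fun x => ∑ i, U d α β γ 0 (wv c x) i * cu d α β γ 0 (wv c x) i)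
    (periodic_comp c fun y => ∑ i, U d α β γ 0 y i * cu d α β γ 0 y i) hfc hN
  rw [← h, ← integral_const_mul]
  congr 1
  ext x
  rw [wN_curl hd]
  simp only [wN, mul_zero, Pi.smul_apply, smul_eq_mul, Finset.mul_sum]
  refine Finset.sum_congr rfl fun i _ => ?_
  ring

end

end Pool.Agent.R739.ET
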