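import Pool.Agent.H708R2.EulerModes.Fourier

/-!
# Wrapped coordinates around a vertical line of `𝕋³`
-/

open MeasureTheory Set
open scoped ENNReal NNReal Topology Pointwise ContDiff

set_option autoImplicit false

namespace Pool.Agent.R739.ET

open Pool.Agent.H708R2.EulerSign Pool.Agent.H708R2.EulerModes

/-- the representative of `s` modulo `2π` in `(-π, π]` -/
noncomputable def wr (s : ℝ) : ℝ := toIocMod Real.two_pi_pos (-Real.pi) s

lemma wr_add (s : ℝ) : wr (s + 2 * Real.pi) = wr s := toIocMod_add_right _ _ _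

lemma wr_mem (s : ℝ) : wr s ∈ Ioc (-Real.pi) Real.pi := by
  have := toIocMod_mem_Ioc Real.two_pi_pos (-Real.pi) s
  have e : -Real.pi + 2 * Real.pi = Real.pi := by ring
  rw [e] at this
  exact this

lemma wr_exists (s : ℝ) : ∃ z : ℤ, s = wr s + z * (2 * Real.pi) := by
  refine ⟨toIocDiv Real.two_pi_pos (-Real.pi) s, ?_⟩
  have := toIocMod_add_toIocDiv_zsmul Real.two_pi_pos (-Real.pi) s
  rw [zsmul_eq_mul] at this
  exact this.symm

lemma wr_eq {s d : ℝ} (hd : d ∈ Ioc (-Real.pi) Real.pi) (h : ∃ z : ℤ, s = d + z * (2 * Real.pi)) :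
    wr s = d := by
  rw [wr, toIocMod_eq_iff]
  have e : -Real.pi + 2 * Real.pi = Real.pi := by ring
  rw [e]
  refine ⟨hd, ?_⟩
  obtain ⟨z, hz⟩ := h
  exact ⟨z, by rw [hz, zsmul_eq_mul]⟩

/-- near a point the wrapped coordinate is a translation, or large -/
lemma wr_near (s₀ s : ℝ) (h : |s - s₀| < 1) :
    wr s = s + (wr s₀ - s₀) ∨ (1 ≤ |wr s| ∧ 1 ≤ |s + (wr s₀ - s₀)|) := by
  have hpi := Real.pi_gt_three
  obtain ⟨z, hz⟩ := wr_exists s₀
  have h0 := wr_mem s₀
  rw [abs_lt] at h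
  set d := s + (wr s₀ - s₀) with hd
  have hds : s = d + z * (2 * Real.pi) := by rw [hd]; linarith
  by_cases h1 : d ∈ Ioc (-Real.pi) Real.pi
  · left
    exact wr_eq h1 ⟨z, hds⟩
  · right
    have hb1 : d < Real.pi + 1 := by rw [hd]; linarith [h0.2]
    have hb2 : -Real.pi - 1 < d := by rw [hd]; linarith [h0.1]
    rcases le_or_gt d (-Real.pi) with h2 | h2
    · have e : wr s = d + 2 * Real.pi := by
        refine wr_eq ⟨by linarith, by linarith⟩ ⟨z - 1, ?_⟩
        push_cast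
        rw [hds]; ring
      refine ⟨?_, ?_⟩
      · rw [e]
        exact le_trans (by linarith) (le_abs_self _)
      · exact le_trans (by linarith) (neg_le_abs _)
    · have h3 : Real.pi < d := by
        by_contra h4
        exact h1 ⟨h2, not_lt.1 h4⟩
      have e : wr s = d - 2 * Real.pi := by
        refine wr_eq ⟨by linarith, by linarith⟩ ⟨z + 1, ?_⟩
        push_cast
        rw [hds]; ring
      refine ⟨?_, ?_⟩
      · rw [e]
        exact le_trans (by linarith) (neg_le_abs _)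
      · exact le_trans (by linarith) (le_abs_self _)

/-- the wrapped coordinates in the plane of the first two variables, around `c` -/
noncomputable def wv (c x : V) : V := ![wr (x 0 - c 0), wr (x 1 - c 1), 0]

@[simp] lemma wv_0 (c x : V) : wv c x 0 = wr (x 0 - c 0) := rfl
@[simp] lemma wv_1 (c x : V) : wv c x 1 = wr (x 1 - c 1) := rfl
@[simp] lemma wv_2 (c x : V) : wv c x 2 = 0 := rfl

/-- the squared distance from the axis -/
def rad (y : V) : ℝ := y 0 ^ 2 + y 1 ^ 2

lemma rad_nonneg (y : V) : 0 ≤ rad y := by unfold rad; positivity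

lemma rad_contDiff {n : WithTop ℕ∞} : ContDiff ℝ n rad := by
  unfold rad
  exact ((contDiff_apply ℝ ℝ (0 : Fin 3)).pow 2).add ((contDiff_apply ℝ ℝ (1 : Fin 3)).pow 2)

/-- functions on `ℝ³` which do not depend on the third coordinate and vanish outside of the tube of
radius `√δ` around the axis -/
structure HT {E : Type*} [Zero E] (δ : ℝ) (h : V → E) : Prop where
  ind : ∀ y z : V, y 0 = z 0 → y 1 = z 1 → h y = h z
  van : ∀ y : V, δ ≤ rad y → h y = 0

/-- the translation which gives the wrapped coordinates near `x₀` -/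
noncomputable def tau (c x₀ : V) : V := ![wr (x₀ 0 - c 0) - x₀ 0, wr (x₀ 1 - c 1) - x₀ 1, 0]

lemma one_le_rad_of_zero {y : V} (h : 1 ≤ |y 0|) : 1 ≤ rad y := by
  have : 1 ≤ y 0 ^ 2 := by rw [← sq_abs]; nlinarith
  unfold rad; nlinarith [sq_nonneg (y 1)]

lemma one_le_rad_of_one {y : V} (h : 1 ≤ |y 1|) : 1 ≤ rad y := by
  have : 1 ≤ y 1 ^ 2 := by rw [← sq_abs]; nlinarith
  unfold rad; nlinarith [sq_nonneg (y 0)]

/-- near `x₀` the wrapped function is a translate; the neighbourhood does not depend on the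
function -/
lemma wv_near (c x₀ x : V) (hx : ∀ i, |x i - x₀ i| < 1) {E : Type*} [Zero E] {δ : ℝ} (hδ : δ ≤ 1)
    {h : V → E} (hh : HT δ h) : h (wv c x) = h (x + tau c x₀) := by
  have e : ∀ i : Fin 3, x i - c i - (x₀ i - c i) = x i - x₀ i := fun i => by ring
  have h0 := wr_near (x₀ 0 - c 0) (x 0 - c 0) (by rw [e]; exact hx 0)
  have h1 := wr_near (x₀ 1 - c 1) (x 1 - c 1) (by rw [e]; exact hx 1)
  have t0 : (x + tau c x₀) 0 = x 0 - c 0 + (wr (x₀ 0 - c 0) - (x₀ 0 - c 0)) := by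
    simp only [tau, Pi.add_apply, Matrix.cons_val_zero]; ring
  have t1 : (x + tau c x₀) 1 = x 1 - c 1 + (wr (x₀ 1 - c 1) - (x₀ 1 - c 1)) := by
    simp only [tau, Pi.add_apply, Matrix.cons_val_one, Matrix.cons_val_zero]; ring
  rcases h0 with h0 | ⟨h0, h0'⟩
  · rcases h1 with h1 | ⟨h1, h1'⟩
    · refine hh.ind _ _ ?_ ?_
      · rw [t0, wv_0, h0]
      · rw [t1, wv_1, h1]
    · rw [hh.van _ (hδ.trans (one_le_rad_of_one (y := wv c x) h1)),
        hh.van _ (hδ.trans (one_le_rad_of_one (by rw [t1]; exact h1')))]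
  · rw [hh.van _ (hδ.trans (one_le_rad_of_zero (y := wv c x) h0)),
      hh.van _ (hδ.trans (one_le_rad_of_zero (by rw [t0]; exact h0')))]

lemma near_mem (x₀ : V) : {x : V | ∀ i, |x i - x₀ i| < 1} ∈ 𝓝 x₀ := by
  refine Filter.mem_of_superset (Metric.ball_mem_nhds x₀ one_pos) ?_
  intro x hx i
  rw [Metric.mem_ball, dist_eq_norm] at hx
  have := norm_le_pi_norm (x - x₀) i
  simp only [Pi.sub_apply, Real.norm_eq_abs] at this
  exact this.trans_lt hx

lemma wv_eventually (x₀ : V) : ∀ᶠ x in 𝓝 x₀, ∀ i, |x i - x₀ i| < 1 := near_mem x₀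

/-- the wrapped function is locally a translate -/
lemma HT.eventuallyEq {E : Type*} [Zero E] {δ : ℝ} (hδ : δ ≤ 1) {h : V → E} (hh : HT δ h)
    (c x₀ : V) : (fun x => h (wv c x)) =ᶠ[𝓝 x₀] fun x => h (x + tau c x₀) := by
  filter_upwards [wv_eventually x₀] with x hx
  exact wv_near c x₀ x hx hδ hh

lemma HT.self {E : Type*} [Zero E] {δ : ℝ} {h : V → E} (hh : HT δ h)
    (c x₀ : V) : h (wv c x₀) = h (x₀ + tau c x₀) := by
  refine hh.ind _ _ ?_ ?_
  · simp [tau]
  · simp [tau]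

lemma HT.contDiff {E : Type*} [NormedAddCommGroup E] [NormedSpace ℝ E] {δ : ℝ} (hδ : δ ≤ 1)
    {h : V → E} (hh : HT δ h) {n : WithTop ℕ∞} (hs : ContDiff ℝ n h) (c : V) :
    ContDiff ℝ n (fun x => h (wv c x)) := by
  rw [contDiff_iff_contDiffAt]
  intro x₀
  refine ContDiffAt.congr_of_eventuallyEq ?_ (hh.eventuallyEq hδ c x₀)
  exact (hs.comp (contDiff_id.add contDiff_const)).contDiffAt

lemma HT.fderiv {E : Type*} [NormedAddCommGroup E] [NormedSpace ℝ E] {δ : ℝ} (hδ : δ ≤ 1)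
    {h : V → E} (hh : HT δ h) (c x₀ : V) :
    fderiv ℝ (fun x => h (wv c x)) x₀ = _root_.fderiv ℝ h (x₀ + tau c x₀) := by
  rw [(hh.eventuallyEq hδ c x₀).fderiv_eq]
  exact fderiv_comp_add_right _

lemma wv_periodic (c : V) : Periodic3 (wv c) := by
  intro i x
  unfold wv
  fin_cases i
  · have : (x + Pi.single (0 : Fin 3) (2 * Real.pi) : V) 0 - c 0 = (x 0 - c 0) + 2 * Real.pi := by
      simp; ring
    simp only [Fin.zero_eta, this, wr_add]
    simp
  · have : (x + Pi.single (1 : Fin 3) (2 * Real.pi) : V) 1 - c 1 = (x 1 - c 1) + 2 * Real.pi := by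
      simp; ring
    simp only [Fin.mk_one, this, wr_add]
    simp
  · simp

lemma periodic_comp {F : Type*} (c : V) (h : V → F) : Periodic3 (fun x => h (wv c x)) := by
  intro i x
  simp only
  rw [wv_periodic c i x]

end Pool.Agent.R739.ET
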